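import Mathlib
import Pool.Agent.H538R2.SBDefs

/-!
# Resolution over clauses found by semidefinite relaxations

Definitions: resolution derivations as directed acyclic graphs, the variables resolved on along
their paths, and sum-of-squares proofs of clauses.
-/

namespace Pool.Agent.W980.KS

open Pool.Agent.H538R2.SB

variable {n : ℕ}

/-- A resolution derivation (with weakening) of the clause `G` from the clauses `C` with `Ax C`:
a finite set of clauses containing `G`, in which every clause either is an axiom
(`par C = none` and `Ax C`), or follows by resolving two clauses `C₀`, `C₁` of the set on a variable
`v`, possibly followed by weakening (`par C = some (v, C₀, C₁)`). It is acyclic: the rank decreases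
from a clause to its two parents (the rank plays no other role). -/
structure Derivation (Ax : Clause n → Prop) (G : Clause n) where
  /-- the clauses of the derivation -/
  lines : Finset (Clause n)
  /-- the chosen inference of every clause -/
  par : Clause n → Option (Fin n × Clause n × Clause n)
  /-- a rank, which shows that the derivation is acyclic -/
  rk : Clause n → ℕ
  last : G ∈ lines
  ax : ∀ C ∈ lines, par C = none → Ax C
  res : ∀ C ∈ lines, ∀ (v : Fin n) (C₀ C₁ : Clause n), par C = some (v, C₀, C₁) →
    C₀ ∈ lines ∧ C₁ ∈ lines ∧ C₀ ⊆ insert (v, true) C ∧ C₁ ⊆ insert (v, false) C ∧
      rk C₀ < rk C ∧ rk C₁ < rk C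

/-- `R.Path C h W`: there is a path in the derivation which goes from the clause `C` to the clause
`W`, from a clause to one of its two parents in every step, and `h` is the list of the variables
resolved on along the path (with repetitions). -/
inductive Derivation.Path {Ax : Clause n → Prop} {G : Clause n} (R : Derivation Ax G) :
    Clause n → List (Fin n) → Clause n → Prop where
  | nil (C : Clause n) : Derivation.Path R C [] C
  | cons (C : Clause n) (v : Fin n) (C₀ C₁ C' : Clause n) (h : List (Fin n)) (W : Clause n) :
      R.par C = some (v, C₀, C₁) → (C' = C₀ ∨ C' = C₁) → Derivation.Path R C' h W →
        Derivation.Path R C (v :: h) W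

open Classical in
/-- The monomial given by the set `K` of literals, as a function of the assignment: the product of
the variables `x v` with `(v, false) ∈ K` and of the complements `1 - x v` with `(v, true) ∈ K`; its
value is `1` if all literals of `K` are false, and otherwise `0`. -/
noncomputable def mono (K : Clause n) : Asg n → ℝ := fun x => if FalseAt K x then 1 else 0

/-- The real function `f` of the assignment is a polynomial, of arbitrary degree, whose monomials
belong to the set `T`. -/
def PolyOver (T : Finset (Clause n)) (f : Asg n → ℝ) : Prop :=
  f ∈ Submodule.span ℝ (mono '' (T : Set (Clause n)))

/-- The clause `D` has a sum-of-squares proof with at most `s` monomials from the CNF formula `F`,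
that is, the formula `F` and the negation of `D` are refuted by sums of squares: on the assignments
which falsify `D`, the constant `-1` is a sum of multiples `h C * mono C` of the polynomials `mono C`
with `C ∈ F` (which vanish if and only if `C` is satisfied), and of squares of polynomials `q j`.
The polynomials `h C` and `q j` have at most `s` different monomials altogether; their degrees, their
coefficients and the number of squares are arbitrary. -/
def SosProves (F : Finset (Clause n)) (s : ℕ) (D : Clause n) : Prop :=
  ∃ T : Finset (Clause n), T.card ≤ s ∧
    ∃ (h : Clause n → Asg n → ℝ) (t : ℕ) (q : Fin t → Asg n → ℝ),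
      (∀ C, PolyOver T (h C)) ∧ (∀ j, PolyOver T (q j)) ∧
      ∀ x, FalseAt D x → ∑ C ∈ F, h C x * mono C x + ∑ j, q j x ^ 2 = -1

/-- The clause `D` can be derived, by an arbitrary resolution derivation with at most `s` clauses,
from clauses which have sum-of-squares proofs with at most `s` monomials from `F`. -/
def Cheap (F : Finset (Clause n)) (s : ℕ) (D : Clause n) : Prop :=
  ∃ P : Derivation (SosProves F s) D, P.lines.card ≤ s

end Pool.Agent.W980.KS
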