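import Mathlib
import Pool.Agent.W980.KS.Defs
import Pool.Agent.H538R2.RDExist

/-!
The adversary for resolution refutations in which few variables are resolved often on every path,
for an abstract notion of a consistent state.
-/

namespace Pool.Agent.W980.KS

open Finset Pool.Agent.H538R2.SB

variable {n N : ℕ} {blk : Fin n → Fin N}
  {Ax : Clause n → Prop} {κ g g₂ K₀ wmin B₁ : ℕ} {Good : Finset (Fin N) → Asg n → Prop}

/-- the variables of the set `V` in block `β` -/
def inV (blk : Fin n → Fin N) (V : Finset (Fin n)) (β : Fin N) : Finset (Fin n) :=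
  Finset.univ.filter (fun v => blk v = β ∧ v ∈ V)

/-- the blocks in which the set `V` has few variables -/
def Poor (blk : Fin n → Fin N) (g g₂ : ℕ) (V : Finset (Fin n)) (β : Fin N) : Prop :=
  (inV blk V β).card + g₂ ≤ g

instance (g g₂ : ℕ) (V : Finset (Fin n)) (β : Fin N) : Decidable (Poor blk g g₂ V β) := by
  unfold Poor; infer_instance

/-- unknown variables of the block outside `V` -/
def unkV (blk : Fin n → Fin N) (C : Clause n) (V : Finset (Fin n)) (β : Fin N) :
    Finset (Fin n) :=
  Finset.univ.filter (fun v => (blk v = β ∧ v ∉ cvars C) ∧ v ∉ V)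

/-- the potential -/
def pot (blk : Fin n → Fin N) (κ g g₂ : ℕ) (V : Finset (Fin n)) (J : Finset (Fin N))
    (C : Clause n) : ℕ :=
  ∑ β ∈ Jᶜ.filter (fun β => Poor blk g g₂ V β), ((g₂ + κ) - (unkV blk C V β).card)

lemma unkV_le (C : Clause n) (V : Finset (Fin n)) (β : Fin N) :
    (unkV blk C V β).card ≤ (unk blk C β).card := by
  apply Finset.card_le_card
  intro v hv
  simp only [unkV, unk, Finset.mem_filter, Finset.mem_univ, true_and] at hv ⊢
  exact hv.1

lemma le_unkV (C : Clause n) (V : Finset (Fin n)) (β : Fin N) :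
    (unk blk C β).card ≤ (unkV blk C V β).card + (inV blk V β).card := by
  refine le_trans (Finset.card_le_card ?_) (Finset.card_union_le _ _)
  intro v hv
  simp only [unkV, unk, inV, Finset.mem_filter, Finset.mem_univ, true_and, Finset.mem_union]
    at hv ⊢
  by_cases h : v ∈ V
  · exact Or.inr ⟨hv.1, h⟩
  · exact Or.inl ⟨hv, h⟩

lemma unkV_step {C C' : Clause n} {v : Fin n} {b : Bool} (h : C' ⊆ insert (v, b) C)
    (V : Finset (Fin n)) (β : Fin N) :
    (unkV blk C V β).card ≤ (unkV blk C' V β).card + (if blk v = β ∧ v ∉ V then 1 else 0) := by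
  have hsub : ∀ w, w ∈ unkV blk C V β → w ≠ v → w ∈ unkV blk C' V β := by
    intro w hw hne
    simp only [unkV, Finset.mem_filter, Finset.mem_univ, true_and] at hw ⊢
    refine ⟨⟨hw.1.1, fun hc => hw.1.2 ?_⟩, hw.2⟩
    obtain ⟨b', hb'⟩ := mem_cvars.1 hc
    have := h hb'
    rw [Finset.mem_insert] at this
    rcases this with h1 | h1
    · exact absurd (congrArg Prod.fst h1) hne
    · exact mem_cvars.2 ⟨b', h1⟩
  split_ifs with hv
  · calc (unkV blk C V β).card ≤ (insert v (unkV blk C' V β)).card := by
          apply Finset.card_le_card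
          intro w hw
          rw [Finset.mem_insert]
          by_cases hne : w = v
          · exact Or.inl hne
          · exact Or.inr (hsub w hw hne)
      _ ≤ _ := Finset.card_insert_le _ _
  · rw [add_zero]
    apply Finset.card_le_card
    intro w hw
    refine hsub w hw ?_
    rintro rfl
    simp only [unkV, Finset.mem_filter, Finset.mem_univ, true_and] at hw
    exact hv ⟨hw.1.1, hw.2⟩

lemma pot_step {C C' : Clause n} {v : Fin n} {b : Bool} (h : C' ⊆ insert (v, b) C)
    (V : Finset (Fin n)) (J : Finset (Fin N)) :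
    pot blk κ g g₂ V J C' ≤ pot blk κ g g₂ V J C + (if v ∉ V then 1 else 0) := by
  unfold pot
  calc ∑ β ∈ Jᶜ.filter (fun β => Poor blk g g₂ V β), ((g₂ + κ) - (unkV blk C' V β).card)
      ≤ ∑ β ∈ Jᶜ.filter (fun β => Poor blk g g₂ V β), (((g₂ + κ) - (unkV blk C V β).card)
          + (if blk v = β then (if v ∉ V then 1 else 0) else 0)) := by
        apply Finset.sum_le_sum
        intro β _
        have h1 := unkV_step (blk := blk) h V β
        by_cases h2 : blk v = β
        · by_cases h3 : v ∉ V
          · rw [if_pos ⟨h2, h3⟩] at h1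
            rw [if_pos h2, if_pos h3]
            omega
          · rw [if_neg (fun h4 => h3 h4.2)] at h1
            rw [if_pos h2, if_neg h3]
            omega
        · rw [if_neg (fun h4 => h2 h4.1)] at h1
          rw [if_neg h2]
          omega
    _ = ∑ β ∈ Jᶜ.filter (fun β => Poor blk g g₂ V β), ((g₂ + κ) - (unkV blk C V β).card)
        + ∑ β ∈ Jᶜ.filter (fun β => Poor blk g g₂ V β),
          (if blk v = β then (if v ∉ V then 1 else 0) else 0) := Finset.sum_add_distrib
    _ ≤ _ := by
        apply Nat.add_le_add_left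
        rw [Finset.sum_ite_eq]
        split_ifs <;> omega

/-- number of differences in the poor blocks -/
def pd (blk : Fin n → Fin N) (g g₂ : ℕ) (V : Finset (Fin n)) (x y : Asg n) : ℕ :=
  (Finset.univ.filter (fun v => x v ≠ y v ∧ Poor blk g g₂ V (blk v))).card

lemma pd_triangle (V : Finset (Fin n)) (x y z : Asg n) :
    pd blk g g₂ V x z ≤ pd blk g g₂ V x y + pd blk g g₂ V y z := by
  unfold pd
  refine le_trans (Finset.card_le_card ?_) (Finset.card_union_le _ _)
  intro v hv
  simp only [Finset.mem_filter, Finset.mem_univ, true_and, Finset.mem_union] at hv ⊢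
  by_cases h : x v = y v
  · exact Or.inr ⟨by rw [← h]; exact hv.1, hv.2⟩
  · exact Or.inl ⟨h, hv.2⟩

lemma pd_self (V : Finset (Fin n)) (x : Asg n) : pd blk g g₂ V x x = 0 := by
  simp [pd]

theorem path_play {G : Clause n} (R : Derivation Ax G)
    (hmono : ∀ J J' x, J' ⊆ J → Good J x → Good J' x)
    (hleaf : ∀ (C : Clause n) (x : Asg n) (J : Finset (Fin N)), Ax C → FalseAt C x →
      J.card = K₀ → Good J x → (∀ β, (unk blk C β).card ≤ κ → β ∈ J) → False)
    (hQ : ∀ (x : Asg n) (J : Finset (Fin N)) (β : Fin N) (U : Finset (Fin n)),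
      Good J x → J.card < K₀ → β ∉ J → (∀ v ∈ U, blk v = β) → U.card = κ →
      ∃ x' : Asg n, (∀ v, v ∉ U → x' v = x v) ∧ Good (insert β J) x')
    (hg : 1 ≤ g)
    (hB₁ : ∀ β, (Finset.univ.filter (fun v => blk v = β)).card ≤ B₁)
    (hW : K₀ * (g + κ) + (N - K₀) * B₁ + wmin ≤ n) :
    ∀ m : ℕ, ∀ C ∈ R.lines, R.rk C = m → ∀ (x : Asg n) (J : Finset (Fin N)), FalseAt C x →
      J.card = K₀ → (∀ β, (unk blk C β).card ≤ κ → β ∈ J) → Good J x →
      ∃ W ∈ R.lines, ∃ (y : Asg n) (h : List (Fin n)), R.Path C h W ∧ wmin ≤ (cvars W).card ∧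
        FalseAt W y ∧ ∀ V : Finset (Fin n),
          g₂ * pd blk g g₂ V x y ≤ κ * ((h.filter (fun v => v ∉ V)).length
            + pot blk κ g g₂ V J C) := by
  intro m
  induction m using Nat.strong_induction_on with
  | _ m ih =>
    intro C hC hm x J hx hJ hcl hsat
    by_cases hwide : wmin ≤ (cvars C).card
    · exact ⟨C, hC, x, [], .nil C, hwide, hx, fun V => by rw [pd_self]; simp⟩
    rcases hpar : R.par C with _ | ⟨v, C₀, C₁⟩
    · exact (hleaf C x J (R.ax C hC hpar) hx hJ hsat hcl).elim
    · obtain ⟨hC₀, hC₁, hs0, hs1, hr0, hr1⟩ := R.res C hC v C₀ C₁ hpar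
      obtain ⟨C', hC', hor, hr', hx', bb, hsub⟩ : ∃ C' ∈ R.lines, (C' = C₀ ∨ C' = C₁) ∧
          R.rk C' < R.rk C ∧ FalseAt C' x ∧ ∃ bb, C' ⊆ insert (v, bb) C := by
        by_cases hv : x v = true
        · exact ⟨C₁, hC₁, Or.inr rfl, hr1, falseAt_step hs1 hx (by rw [hv]; decide), _, hs1⟩
        · exact ⟨C₀, hC₀, Or.inl rfl, hr0, falseAt_step hs0 hx hv, _, hs0⟩
      have hstep := unk_step (blk := blk) hsub
      have hpath : ∀ (h : List (Fin n)) (W : Clause n), R.Path C' h W → R.Path C (v :: h) W :=
        fun h W hp => .cons C v C₀ C₁ C' h W hpar hor hp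
      have hlen : ∀ (V : Finset (Fin n)) (h : List (Fin n)),
          ((v :: h).filter (fun w => w ∉ V)).length
            = (h.filter (fun w => w ∉ V)).length + (if v ∉ V then 1 else 0) := by
        intro V h
        by_cases hvV : v ∈ V
        · simp [hvV]
        · simp [hvV]
      by_cases hcl' : ∀ β, (unk blk C' β).card ≤ κ → β ∈ J
      · obtain ⟨W, hW1, y, h, hp, hW2, hW3, hW4⟩ :=
          ih (R.rk C') (by omega) C' hC' rfl x J hx' hJ hcl' hsat
        refine ⟨W, hW1, y, v :: h, hpath h W hp, hW2, hW3, fun V => ?_⟩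
        refine (hW4 V).trans ?_
        apply Nat.mul_le_mul_left
        rw [hlen]
        have := pot_step (blk := blk) (κ := κ) (g := g) (g₂ := g₂) hsub V J
        omega
      · by_cases hwide' : wmin ≤ (cvars C').card
        · exact ⟨C', hC', x, [v], hpath [] C' (.nil C'), hwide', hx',
            fun V => by rw [pd_self]; simp⟩
        push Not at hcl' hwide'
        obtain ⟨β, hβκ, hβJ⟩ := hcl'
        -- every closed block outside J is the block of v
        have huniq : ∀ γ, (unk blk C' γ).card ≤ κ → γ ∉ J → blk v = γ ∧ (unk blk C' γ).card = κ := by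
          intro γ hγ hγJ
          have h1 : ¬ (unk blk C γ).card ≤ κ := fun h => hγJ (hcl γ h)
          have h2 := hstep γ
          by_cases hvγ : blk v = γ
          · rw [if_pos hvγ] at h2
            exact ⟨hvγ, by omega⟩
          · rw [if_neg hvγ] at h2
            omega
        obtain ⟨hvβ, hβc⟩ := huniq β hβκ hβJ
        obtain ⟨β', hβ'J, hβ'⟩ := exists_fresh (blk := blk) hB₁ hW hwide' hJ
        have hne : β ≠ β' := by rintro rfl; exact hβJ hβ'J
        have hβJ' : β ∉ J.erase β' := fun h => hβJ (Finset.mem_of_mem_erase h)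
        have hJpos : 1 ≤ J.card := Finset.card_pos.2 ⟨β', hβ'J⟩
        obtain ⟨x', hx'1, hx'2⟩ := hQ x (J.erase β') β (unk blk C' β)
          (hmono _ _ _ (Finset.erase_subset _ _) hsat)
          (by rw [Finset.card_erase_of_mem hβ'J]; omega) hβJ'
          (fun w hw => by
            simp only [unk, Finset.mem_filter, Finset.mem_univ, true_and] at hw
            exact hw.1) hβc
        set J' := insert β (J.erase β') with hJ'def
        have hJ' : J'.card = K₀ := by
          rw [hJ'def, Finset.card_insert_of_notMem hβJ', Finset.card_erase_of_mem hβ'J]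
          omega
        have hfx' : FalseAt C' x' := by
          intro l hl
          rw [hx'1 l.1]
          · exact hx' l hl
          · intro h
            simp only [unk, Finset.mem_filter, Finset.mem_univ, true_and] at h
            exact h.2 (mem_cvars.2 ⟨l.2, hl⟩)
        have hcl'' : ∀ γ, (unk blk C' γ).card ≤ κ → γ ∈ J' := by
          intro γ hγ
          by_cases hγJ : γ ∈ J
          · apply Finset.mem_insert_of_mem
            rw [Finset.mem_erase]
            refine ⟨?_, hγJ⟩
            rintro rfl
            omega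
          · have := (huniq γ hγ hγJ).1
            rw [hJ'def, ← this, hvβ]
            exact Finset.mem_insert_self _ _
        obtain ⟨W, hW1, y, h, hp, hW2, hW3, hW4⟩ := ih (R.rk C') (by omega) C' hC' rfl x' J' hfx'
          hJ' hcl'' hx'2
        refine ⟨W, hW1, y, v :: h, hpath h W hp, hW2, hW3, fun V => ?_⟩
        rw [hlen]
        have hst := pot_step (blk := blk) (κ := κ) (g := g) (g₂ := g₂) hsub V J
        -- the complement
        have hcompl : J'ᶜ = insert β' (Jᶜ.erase β) := by
          ext γ
          simp only [hJ'def, Finset.mem_compl, Finset.mem_insert, Finset.mem_erase, not_or,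
            not_and, ne_eq]
          constructor
          · rintro ⟨h1, h2⟩
            by_cases h3 : γ = β'
            · exact Or.inl h3
            · exact Or.inr ⟨h1, fun h => h2 h3 h⟩
          · rintro (rfl | ⟨h1, h2⟩)
            · exact ⟨fun h => hne h.symm, fun h => absurd rfl h⟩
            · exact ⟨h1, fun _ h => h2 h⟩
        have hβ'n : β' ∉ (Jᶜ.erase β).filter (fun γ => Poor blk g g₂ V γ) := by
          rw [Finset.mem_filter, Finset.mem_erase, Finset.mem_compl]
          rintro ⟨⟨_, h⟩, _⟩
          exact h hβ'J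
        have hdrop1 : pot blk κ g g₂ V J' C'
            ≤ ∑ γ ∈ (Jᶜ.erase β).filter (fun γ => Poor blk g g₂ V γ),
              ((g₂ + κ) - (unkV blk C' V γ).card) := by
          unfold pot
          rw [hcompl, Finset.filter_insert]
          split_ifs with hpoor
          · rw [Finset.sum_insert hβ'n]
            have h1 := le_unkV (blk := blk) C' V β'
            have h2 : (inV blk V β').card + g₂ ≤ g := hpoor
            omega
          · exact le_rfl
        by_cases hpoor : Poor blk g g₂ V β
        · -- the potential drops by g₂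
          have hdrop2 : (∑ γ ∈ (Jᶜ.erase β).filter (fun γ => Poor blk g g₂ V γ),
              ((g₂ + κ) - (unkV blk C' V γ).card)) + g₂ ≤ pot blk κ g g₂ V J C' := by
            unfold pot
            have h1 : Jᶜ.filter (fun γ => Poor blk g g₂ V γ)
                = insert β ((Jᶜ.erase β).filter (fun γ => Poor blk g g₂ V γ)) := by
              ext γ
              simp only [Finset.mem_filter, Finset.mem_insert, Finset.mem_erase,
                Finset.mem_compl]
              constructor
              · rintro ⟨h1, h2⟩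
                by_cases h3 : γ = β
                · exact Or.inl h3
                · exact Or.inr ⟨⟨h3, h1⟩, h2⟩
              · rintro (rfl | ⟨⟨_, h2⟩, h3⟩)
                · exact ⟨hβJ, hpoor⟩
                · exact ⟨h2, h3⟩
            have h2 : β ∉ (Jᶜ.erase β).filter (fun γ => Poor blk g g₂ V γ) := by
              simp
            rw [h1, Finset.sum_insert h2]
            have h3 := unkV_le (blk := blk) C' V β
            omega
          have hd1 : pd blk g g₂ V x x' ≤ κ := by
            rw [← hβc]
            unfold pd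
            apply Finset.card_le_card
            intro w hw
            simp only [Finset.mem_filter, Finset.mem_univ, true_and] at hw
            by_contra hnot
            exact hw.1 (hx'1 w hnot).symm
          have htri := pd_triangle (blk := blk) (g := g) (g₂ := g₂) V x x' y
          have h4 := hW4 V
          calc g₂ * pd blk g g₂ V x y ≤ g₂ * (κ + pd blk g g₂ V x' y) := by
                apply Nat.mul_le_mul_left
                omega
            _ = κ * g₂ + g₂ * pd blk g g₂ V x' y := by ring
            _ ≤ κ * g₂ + κ * ((h.filter (fun v => v ∉ V)).length + pot blk κ g g₂ V J' C') := by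
                omega
            _ = κ * ((h.filter (fun v => v ∉ V)).length + (pot blk κ g g₂ V J' C' + g₂)) := by
                ring
            _ ≤ _ := by
                apply Nat.mul_le_mul_left
                omega
        · -- no differences in poor blocks
          have hd1 : pd blk g g₂ V x x' = 0 := by
            unfold pd
            rw [Finset.card_eq_zero, Finset.eq_empty_iff_forall_notMem]
            intro w hw
            simp only [Finset.mem_filter, Finset.mem_univ, true_and] at hw
            have hwU : w ∈ unk blk C' β := by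
              by_contra hnot
              exact hw.1 (hx'1 w hnot).symm
            simp only [unk, Finset.mem_filter, Finset.mem_univ, true_and] at hwU
            rw [hwU.1] at hw
            exact hpoor hw.2
          have hdrop2 : (∑ γ ∈ (Jᶜ.erase β).filter (fun γ => Poor blk g g₂ V γ),
              ((g₂ + κ) - (unkV blk C' V γ).card)) ≤ pot blk κ g g₂ V J C' := by
            unfold pot
            apply Finset.sum_le_sum_of_subset
            exact Finset.filter_subset_filter _ (Finset.erase_subset _ _)
          have htri := pd_triangle (blk := blk) (g := g) (g₂ := g₂) V x x' y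
          have h4 := hW4 V
          calc g₂ * pd blk g g₂ V x y ≤ g₂ * pd blk g g₂ V x' y := by
                apply Nat.mul_le_mul_left
                omega
            _ ≤ _ := h4
            _ ≤ _ := by
                apply Nat.mul_le_mul_left
                omega

/-- Start: every assignment is close to a consistent state on `K₀` blocks. -/
lemma start2 (h0 : ∀ x, Good ∅ x)
    (hQ : ∀ (x : Asg n) (J : Finset (Fin N)) (β : Fin N) (U : Finset (Fin n)),
      Good J x → J.card < K₀ → β ∉ J → (∀ v ∈ U, blk v = β) → U.card = κ →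
      ∃ x' : Asg n, (∀ v, v ∉ U → x' v = x v) ∧ Good (insert β J) x')
    (hB₀ : ∀ β, κ ≤ (Finset.univ.filter (fun v => blk v = β)).card) (z : Asg n) :
    ∀ k, k ≤ K₀ → k ≤ N → ∃ (x : Asg n) (J : Finset (Fin N)), J.card = k ∧
      Good J x ∧ hammingDist z x ≤ k * κ := by
  intro k
  induction k with
  | zero =>
    intro _ _
    exact ⟨z, ∅, rfl, h0 z, by simp⟩
  | succ k ih =>
    intro hk hkN
    obtain ⟨x, J, hJ, hsat, hd⟩ := ih (by omega) (by omega)
    obtain ⟨β, hβ⟩ : ∃ β, β ∉ J := by
      by_contra hcon
      push Not at hcon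
      have : J = Finset.univ := Finset.eq_univ_iff_forall.2 hcon
      rw [this, Finset.card_univ, Fintype.card_fin] at hJ
      omega
    obtain ⟨U, hU1, hU2⟩ := Finset.exists_subset_card_eq (hB₀ β)
    obtain ⟨x', h1, h2⟩ := hQ x J β U hsat (by omega) hβ
      (fun v hv => by
        have := hU1 hv
        simpa using this) hU2
    refine ⟨x', insert β J, by rw [Finset.card_insert_of_notMem hβ, hJ], h2, ?_⟩
    have hd1 : hammingDist x x' ≤ κ := by
      rw [← hU2]
      unfold hammingDist
      apply Finset.card_le_card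
      intro w hw
      simp only [Finset.mem_filter, Finset.mem_univ, true_and] at hw
      by_contra hnot
      exact hw (h1 w hnot).symm
    have htri : hammingDist z x' ≤ hammingDist z x + hammingDist x x' :=
      hammingDist_triangle _ _ _
    calc hammingDist z x' ≤ k * κ + κ := by omega
      _ = (k + 1) * κ := by ring

/-- few blocks are rich in variables of `V` -/
lemma rich_card (hg₂ : 2 * g₂ ≤ g) (V : Finset (Fin n)) :
    (Finset.univ.filter (fun β : Fin N => ¬ Poor blk g g₂ V β)).card * g₂ ≤ V.card := by
  calc (Finset.univ.filter (fun β : Fin N => ¬ Poor blk g g₂ V β)).card * g₂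
      = ∑ β ∈ Finset.univ.filter (fun β : Fin N => ¬ Poor blk g g₂ V β), g₂ := by
        rw [Finset.sum_const, smul_eq_mul]
    _ ≤ ∑ β ∈ Finset.univ.filter (fun β : Fin N => ¬ Poor blk g g₂ V β), (inV blk V β).card := by
        apply Finset.sum_le_sum
        intro β hβ
        have h1 : ¬ (inV blk V β).card + g₂ ≤ g := (Finset.mem_filter.1 hβ).2
        omega
    _ ≤ ∑ β : Fin N, (inV blk V β).card :=
        Finset.sum_le_sum_of_subset (Finset.filter_subset _ _)
    _ = V.card := by
        rw [Finset.card_eq_sum_card_fiberwise (f := blk) (s := V) (t := Finset.univ)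
          (fun _ _ => Finset.mem_univ _)]
        apply Finset.sum_congr rfl
        intro β _
        congr 1
        ext v
        simp only [inV, Finset.mem_filter, Finset.mem_univ, true_and]
        tauto

lemma dist_le (hg₂ : 2 * g₂ ≤ g) (hg₂1 : 1 ≤ g₂)
    (hB₁ : ∀ β, (Finset.univ.filter (fun v => blk v = β)).card ≤ B₁)
    (V : Finset (Fin n)) (x y : Asg n) :
    hammingDist x y ≤ pd blk g g₂ V x y + V.card / g₂ * B₁ := by
  have h1 : (Finset.univ.filter (fun v => ¬ Poor blk g g₂ V (blk v))).card
      ≤ V.card / g₂ * B₁ := by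
    have h2 : (Finset.univ.filter (fun v => ¬ Poor blk g g₂ V (blk v)))
        ⊆ (Finset.univ.filter (fun β : Fin N => ¬ Poor blk g g₂ V β)).biUnion
          (fun β => Finset.univ.filter (fun v => blk v = β)) := by
      intro v hv
      rw [Finset.mem_biUnion]
      exact ⟨blk v, Finset.mem_filter.2 ⟨Finset.mem_univ _, (Finset.mem_filter.1 hv).2⟩,
        Finset.mem_filter.2 ⟨Finset.mem_univ _, rfl⟩⟩
    refine (Finset.card_le_card h2).trans (Finset.card_biUnion_le.trans ?_)
    calc ∑ β ∈ Finset.univ.filter (fun β : Fin N => ¬ Poor blk g g₂ V β),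
          (Finset.univ.filter (fun v => blk v = β)).card
        ≤ ∑ β ∈ Finset.univ.filter (fun β : Fin N => ¬ Poor blk g g₂ V β), B₁ :=
          Finset.sum_le_sum (fun β _ => hB₁ β)
      _ = (Finset.univ.filter (fun β : Fin N => ¬ Poor blk g g₂ V β)).card * B₁ := by
          rw [Finset.sum_const, smul_eq_mul]
      _ ≤ _ := by
          apply Nat.mul_le_mul_right
          rw [Nat.le_div_iff_mul_le (by omega)]
          exact rich_card hg₂ V
  refine le_trans ?_ (Nat.add_le_add_left h1 _)
  unfold hammingDist pd
  refine le_trans (Finset.card_le_card ?_) (Finset.card_union_le _ _)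
  intro v hv
  simp only [Finset.mem_filter, Finset.mem_univ, true_and, Finset.mem_union] at hv ⊢
  by_cases h : Poor blk g g₂ V (blk v)
  · exact Or.inl ⟨hv, h⟩
  · exact Or.inr h

/-- A refutation such that on every path few variables are resolved often has many wide lines. -/
theorem path_bound (R : Derivation Ax ∅) (hg : 1 ≤ g) (hg₂ : 2 * g₂ ≤ g) (hg₂1 : 1 ≤ g₂)
    (hmono : ∀ J J' x, J' ⊆ J → Good J x → Good J' x)
    (h0 : ∀ x, Good ∅ x)
    (hleaf : ∀ (C : Clause n) (x : Asg n) (J : Finset (Fin N)), Ax C → FalseAt C x →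
      J.card = K₀ → Good J x → (∀ β, (unk blk C β).card ≤ κ → β ∈ J) → False)
    (hQ : ∀ (x : Asg n) (J : Finset (Fin N)) (β : Fin N) (U : Finset (Fin n)),
      Good J x → J.card < K₀ → β ∉ J → (∀ v ∈ U, blk v = β) → U.card = κ →
      ∃ x' : Asg n, (∀ v, v ∉ U → x' v = x v) ∧ Good (insert β J) x')
    (hB₀ : ∀ β, g + κ ≤ (Finset.univ.filter (fun v => blk v = β)).card)
    (hB₁ : ∀ β, (Finset.univ.filter (fun v => blk v = β)).card ≤ B₁)
    (hK : K₀ ≤ N)
    (hW : K₀ * (g + κ) + (N - K₀) * B₁ + wmin ≤ n)
    {Q Vn : ℕ} (hR : ∀ (h : List (Fin n)) (W : Clause n), R.Path ∅ h W →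
      ∃ V : Finset (Fin n), V.card ≤ Vn ∧ (h.filter (fun v => v ∉ V)).length ≤ Q)
    {D : ℕ} (hD : K₀ * κ + (κ * Q / g₂ + Vn / g₂ * B₁) ≤ D) {l : ℝ} (hl0 : 0 < l) (hl1 : l ≤ 1) :
    2 ^ wmin * l ^ D ≤ (R.lines.card : ℝ) * (1 + l) ^ n := by
  classical
  have hkey : ∀ z : Asg n, ∃ W ∈ R.lines, ∃ y : Asg n, wmin ≤ (cvars W).card ∧ FalseAt W y ∧
      hammingDist z y ≤ D := by
    intro z
    obtain ⟨x, J, hJ, hsat, hd⟩ := start2 (K₀ := K₀) (κ := κ) h0 hQ
      (fun β => (by omega : κ ≤ g + κ).trans (hB₀ β)) z K₀ le_rfl hK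
    have hunk : ∀ β, unk blk (∅ : Clause n) β = Finset.univ.filter (fun v => blk v = β) := by
      intro β
      ext v
      simp [unk, cvars]
    obtain ⟨W, hW1, y, h, hp, hW2, hW3, hW4⟩ := path_play (B₁ := B₁) (g₂ := g₂) R hmono hleaf hQ hg
      hB₁ hW (R.rk ∅) ∅ R.last rfl x J (by intro l hl; simp at hl) hJ
      (by
        intro β hβ
        rw [hunk] at hβ
        have := hB₀ β
        omega) hsat
    refine ⟨W, hW1, y, hW2, hW3, ?_⟩
    obtain ⟨V, hV1, hV2⟩ := hR h W hp
    have h0 : pot blk κ g g₂ V J (∅ : Clause n) = 0 := by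
      unfold pot
      apply Finset.sum_eq_zero
      intro β hβ
      have h1 : (inV blk V β).card + g₂ ≤ g := (Finset.mem_filter.1 hβ).2
      have h2 := le_unkV (blk := blk) (∅ : Clause n) V β
      rw [hunk] at h2
      have := hB₀ β
      omega
    have h1 := hW4 V
    rw [h0, add_zero] at h1
    have h3 : pd blk g g₂ V x y ≤ κ * Q / g₂ := by
      rw [Nat.le_div_iff_mul_le (by omega)]
      rw [mul_comm]
      exact h1.trans (Nat.mul_le_mul_left _ hV2)
    have h4 := dist_le (blk := blk) hg₂ hg₂1 hB₁ V x y
    have h5 : V.card / g₂ * B₁ ≤ Vn / g₂ * B₁ :=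
      Nat.mul_le_mul_right _ (Nat.div_le_div_right hV1)
    calc hammingDist z y ≤ hammingDist z x + hammingDist x y := hammingDist_triangle _ _ _
      _ ≤ K₀ * κ + (κ * Q / g₂ + Vn / g₂ * B₁) := by omega
      _ ≤ D := hD
  -- counting
  set Wd := R.lines.filter (fun W => wmin ≤ (cvars W).card) with hWd
  have hcov : (Finset.univ : Finset (Asg n)) ⊆ Wd.biUnion (fun W =>
      (Finset.univ.filter (fun y : Asg n => FalseAt W y)).biUnion (fun y =>
        Finset.univ.filter (fun z : Asg n => hammingDist z y ≤ D))) := by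
    intro z _
    obtain ⟨W, hW1, y, hW2, hW3, hW4⟩ := hkey z
    rw [Finset.mem_biUnion]
    refine ⟨W, Finset.mem_filter.2 ⟨hW1, hW2⟩, ?_⟩
    rw [Finset.mem_biUnion]
    exact ⟨y, Finset.mem_filter.2 ⟨Finset.mem_univ _, hW3⟩,
      Finset.mem_filter.2 ⟨Finset.mem_univ _, hW4⟩⟩
  have hc1 : (2 : ℝ) ^ n ≤ ∑ W ∈ Wd, ∑ y ∈ Finset.univ.filter (fun y : Asg n => FalseAt W y),
      ((Finset.univ.filter (fun z : Asg n => hammingDist z y ≤ D)).card : ℝ) := by
    have h3 : 2 ^ n ≤ ∑ W ∈ Wd, ∑ y ∈ Finset.univ.filter (fun y : Asg n => FalseAt W y),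
        (Finset.univ.filter (fun z : Asg n => hammingDist z y ≤ D)).card := by
      have h4 := Finset.card_le_card hcov
      simp only [Finset.card_univ, Fintype.card_pi, Fintype.card_bool, Finset.prod_const,
        Fintype.card_fin] at h4
      refine h4.trans (Finset.card_biUnion_le.trans (Finset.sum_le_sum ?_))
      intro W _
      exact Finset.card_biUnion_le
    exact_mod_cast h3
  have hc2 : (2 : ℝ) ^ n * (2 ^ wmin * l ^ D) ≤ 2 ^ n * ((R.lines.card : ℝ) * (1 + l) ^ n) := by
    calc (2 : ℝ) ^ n * (2 ^ wmin * l ^ D)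
        ≤ (∑ W ∈ Wd, ∑ y ∈ Finset.univ.filter (fun y : Asg n => FalseAt W y),
      ((Finset.univ.filter (fun z : Asg n => hammingDist z y ≤ D)).card : ℝ))
          * (2 ^ wmin * l ^ D) := mul_le_mul_of_nonneg_right hc1 (by positivity)
      _ = ∑ W ∈ Wd, (∑ y ∈ Finset.univ.filter (fun y : Asg n => FalseAt W y),
      ((Finset.univ.filter (fun z : Asg n => hammingDist z y ≤ D)).card : ℝ) * l ^ D)
          * 2 ^ wmin := by
          rw [Finset.sum_mul]
          apply Finset.sum_congr rfl
          intro W _
          rw [← Finset.sum_mul]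
          ring
      _ ≤ ∑ W ∈ Wd, (∑ y ∈ Finset.univ.filter (fun y : Asg n => FalseAt W y), (1 + l) ^ n)
          * 2 ^ wmin := by
          apply Finset.sum_le_sum
          intro W _
          apply mul_le_mul_of_nonneg_right _ (by positivity)
          apply Finset.sum_le_sum
          intro y _
          exact ball_bound y D hl0 hl1
      _ ≤ ∑ W ∈ Wd, 2 ^ n * (1 + l) ^ n := by
          apply Finset.sum_le_sum
          intro W hW
          rw [Finset.sum_const, nsmul_eq_mul]
          have h5 := falsify_card W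
          have h6 : (Finset.univ.filter (fun y : Asg n => FalseAt W y)).card * 2 ^ wmin
              ≤ 2 ^ n := by
            refine le_trans (Nat.mul_le_mul_left _ ?_) h5
            exact Nat.pow_le_pow_right (by norm_num) (Finset.mem_filter.1 hW).2
          have h7 : ((Finset.univ.filter (fun y : Asg n => FalseAt W y)).card : ℝ) * 2 ^ wmin
              ≤ 2 ^ n := by exact_mod_cast h6
          calc ((Finset.univ.filter (fun y : Asg n => FalseAt W y)).card : ℝ) * (1 + l) ^ n
                * 2 ^ wmin
              = (((Finset.univ.filter (fun y : Asg n => FalseAt W y)).card : ℝ) * 2 ^ wmin)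
                * (1 + l) ^ n := by ring
            _ ≤ _ := mul_le_mul_of_nonneg_right h7 (by positivity)
      _ = (Wd.card : ℝ) * (2 ^ n * (1 + l) ^ n) := by
          rw [Finset.sum_const, nsmul_eq_mul]
      _ ≤ (R.lines.card : ℝ) * (2 ^ n * (1 + l) ^ n) := by
          apply mul_le_mul_of_nonneg_right _ (by positivity)
          exact_mod_cast Finset.card_filter_le _ _
      _ = _ := by ring
  exact le_of_mul_le_mul_left hc2 (by positivity)

end Pool.Agent.W980.KS
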