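import Mathlib

/-!
Characters of `(ZMod p) ^ N` and pseudo-expectations given by their values on characters.
-/

namespace Pool.Agent.W980.KS

open Finset ComplexConjugate

variable {p N : ℕ} [Fact p.Prime]

/-- the support -/
def supp (u : Fin N → ZMod p) : Finset (Fin N) := Finset.univ.filter (fun β => u β ≠ 0)

/-- the character `y ↦ exp (2 π i ⟨u, y⟩ / p)` -/
noncomputable def chi (u y : Fin N → ZMod p) : ℂ := ZMod.stdAddChar (∑ β, u β * y β)

lemma chi_add_left (u u' y : Fin N → ZMod p) : chi (u + u') y = chi u y * chi u' y := by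
  unfold chi
  rw [← AddChar.map_add_eq_mul, ← Finset.sum_add_distrib]
  congr 1
  apply Finset.sum_congr rfl
  intro β _
  simp only [Pi.add_apply]
  ring

lemma chi_comm (u y : Fin N → ZMod p) : chi u y = chi y u := by
  unfold chi
  congr 1
  apply Finset.sum_congr rfl
  intro β _
  ring

lemma chi_add_right (u y y' : Fin N → ZMod p) : chi u (y + y') = chi u y * chi u y' := by
  rw [chi_comm, chi_add_left, chi_comm y, chi_comm y']

lemma chi_zero_left (y : Fin N → ZMod p) : chi 0 y = 1 := by
  unfold chi
  simp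

lemma chi_neg_left (u y : Fin N → ZMod p) : chi (-u) y = conj (chi u y) := by
  unfold chi
  rw [← AddChar.map_neg_eq_conj]
  congr 1
  rw [← Finset.sum_neg_distrib]
  apply Finset.sum_congr rfl
  intro β _
  simp only [Pi.neg_apply]
  ring

lemma chi_single (u : Fin N → ZMod p) (β : Fin N) (t : ZMod p) :
    chi u (Pi.single β t) = ZMod.stdAddChar (u β * t) := by
  unfold chi
  congr 1
  rw [Finset.sum_eq_single β]
  · simp
  · intro b _ hb
    rw [Pi.single_eq_of_ne hb, mul_zero]
  · intro h; exact absurd (Finset.mem_univ _) h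

lemma chi_single_ne_one {u : Fin N → ZMod p} {β : Fin N} (h : u β ≠ 0) :
    chi u (Pi.single β 1) ≠ 1 := by
  rw [chi_single, mul_one]
  intro h1
  rw [← AddChar.map_zero_eq_one (ZMod.stdAddChar (N := p))] at h1
  exact h (ZMod.injective_stdAddChar h1)

lemma sum_chi (u : Fin N → ZMod p) : ∑ y, chi u y = if u = 0 then (p : ℂ) ^ N else 0 := by
  classical
  split_ifs with h
  · subst h
    simp only [chi_zero_left]
    rw [Finset.sum_const, Finset.card_univ, Fintype.card_fun, ZMod.card, Fintype.card_fin]
    simp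
  · obtain ⟨β, hβ⟩ : ∃ β, u β ≠ 0 := by
      by_contra hcon
      push Not at hcon
      exact h (funext hcon)
    have h1 : ∑ y, chi u y = chi u (Pi.single β 1) * ∑ y, chi u y := by
      rw [Finset.mul_sum]
      refine (Fintype.sum_equiv (Equiv.addLeft (Pi.single β (1 : ZMod p))) _ _ (fun y => ?_)).symm
      rw [Equiv.coe_addLeft, chi_add_right]
    have h2 : (1 - chi u (Pi.single β 1)) * ∑ y, chi u y = 0 := by
      rw [sub_mul, one_mul, ← h1, sub_self]
    rcases mul_eq_zero.1 h2 with h3 | h3
    · exact absurd (sub_eq_zero.1 h3).symm (chi_single_ne_one hβ)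
    · exact h3

/-- Fourier coefficients -/
noncomputable def hat (G : (Fin N → ZMod p) → ℂ) (u : Fin N → ZMod p) : ℂ :=
  (∑ y, G y * chi (-u) y) / (p : ℂ) ^ N

lemma pN_ne : ((p : ℂ) ^ N) ≠ 0 := by
  have : (p : ℂ) ≠ 0 := by
    have := (Fact.out : p.Prime).ne_zero
    exact_mod_cast this
  exact pow_ne_zero _ this

lemma inversion (G : (Fin N → ZMod p) → ℂ) (y : Fin N → ZMod p) :
    G y = ∑ u, hat G u * chi u y := by
  classical
  have h1 : ∑ u, hat G u * chi u y
      = (∑ y', G y' * ∑ u, chi (y - y') u) / (p : ℂ) ^ N := by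
    unfold hat
    simp only [div_mul_eq_mul_div]
    rw [← Finset.sum_div]
    congr 1
    simp only [Finset.mul_sum, Finset.sum_mul]
    rw [Finset.sum_comm]
    apply Finset.sum_congr rfl
    intro y' _
    apply Finset.sum_congr rfl
    intro u _
    rw [sub_eq_add_neg, chi_add_left, chi_comm y u, chi_neg_left y', chi_comm y', ← chi_neg_left]
    ring
  rw [h1]
  have h2 : ∀ y', (∑ u, chi (y - y') u) = if y = y' then (p : ℂ) ^ N else 0 := by
    intro y'
    rw [sum_chi]
    simp only [sub_eq_zero]
  simp only [h2, mul_ite, mul_zero]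
  rw [Finset.sum_ite_eq]
  simp only [Finset.mem_univ, if_true]
  rw [mul_div_assoc, div_self pN_ne, mul_one]

lemma hat_add (G G' : (Fin N → ZMod p) → ℂ) (u : Fin N → ZMod p) :
    hat (G + G') u = hat G u + hat G' u := by
  unfold hat
  rw [← add_div, ← Finset.sum_add_distrib]
  congr 1
  apply Finset.sum_congr rfl
  intro y _
  simp only [Pi.add_apply]
  ring

lemma hat_smul (c : ℂ) (G : (Fin N → ZMod p) → ℂ) (u : Fin N → ZMod p) :
    hat (c • G) u = c * hat G u := by
  unfold hat
  rw [← mul_div_assoc, Finset.mul_sum]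
  congr 1
  apply Finset.sum_congr rfl
  intro y _
  simp only [Pi.smul_apply, smul_eq_mul]
  ring

lemma hat_chi (u u' : Fin N → ZMod p) : hat (fun y => chi u y) u' = if u' = u then 1 else 0 := by
  classical
  unfold hat
  have h1 : ∀ y, chi u y * chi (-u') y = chi (u - u') y := by
    intro y
    rw [sub_eq_add_neg, chi_add_left]
  simp only [h1]
  rw [sum_chi]
  by_cases h : u' = u
  · subst h
    simp only [sub_self, if_true]
    exact div_self pN_ne
  · rw [if_neg (fun h' => h (sub_eq_zero.1 h').symm), if_neg h, zero_div]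

/-- the function has block degree at most `d` -/
def BD (d : ℕ) (G : (Fin N → ZMod p) → ℂ) : Prop := ∀ u, d < (supp u).card → hat G u = 0

lemma BD.add {d : ℕ} {G G' : (Fin N → ZMod p) → ℂ} (h : BD d G) (h' : BD d G') :
    BD d (G + G') := fun u hu => by rw [hat_add, h u hu, h' u hu, add_zero]

lemma BD.smul {d : ℕ} {G : (Fin N → ZMod p) → ℂ} (c : ℂ) (h : BD d G) :
    BD d (c • G) := fun u hu => by rw [hat_smul, h u hu, mul_zero]

lemma BD.zero {d : ℕ} : BD d (0 : (Fin N → ZMod p) → ℂ) := fun u _ => by simp [hat]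

lemma BD.of_dep {d : ℕ} {G : (Fin N → ZMod p) → ℂ} {S : Finset (Fin N)} (hS : S.card ≤ d)
    (h : ∀ y y', (∀ β ∈ S, y β = y' β) → G y = G y') : BD d G := by
  classical
  intro u hu
  obtain ⟨β, hβ, hβS⟩ : ∃ β, u β ≠ 0 ∧ β ∉ S := by
    by_contra hcon
    push Not at hcon
    have : supp u ⊆ S := fun β hβ => hcon β (Finset.mem_filter.1 hβ).2
    have := Finset.card_le_card this
    omega
  have h1 : ∑ y, G y * chi (-u) y = chi (-u) (Pi.single β 1) * ∑ y, G y * chi (-u) y := by
    rw [Finset.mul_sum]
    refine (Fintype.sum_equiv (Equiv.addLeft (Pi.single β (1 : ZMod p))) _ _ (fun y => ?_)).symm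
    rw [Equiv.coe_addLeft, chi_add_right]
    have h2 : G (Pi.single β 1 + y) = G y := by
      apply h
      intro γ hγ
      have : γ ≠ β := by rintro rfl; exact hβS hγ
      simp [Pi.single_eq_of_ne this]
    rw [h2]
    ring
  have h2 : (1 - chi (-u) (Pi.single β 1)) * ∑ y, G y * chi (-u) y = 0 := by
    rw [sub_mul, one_mul, ← h1, sub_self]
  have h3 : chi (-u) (Pi.single β (1 : ZMod p)) ≠ 1 := chi_single_ne_one (by simpa using hβ)
  rcases mul_eq_zero.1 h2 with h4 | h4
  · exact absurd (sub_eq_zero.1 h4).symm h3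
  · unfold hat
    rw [h4, zero_div]

/-- the functional given by its values on characters -/
noncomputable def Ex (val : (Fin N → ZMod p) → ℂ) : ((Fin N → ZMod p) → ℂ) →ₗ[ℂ] ℂ where
  toFun G := ∑ u, hat G u * val u
  map_add' G G' := by
    rw [← Finset.sum_add_distrib]
    apply Finset.sum_congr rfl
    intro u _
    rw [hat_add]
    ring
  map_smul' c G := by
    simp only [RingHom.id_apply, smul_eq_mul]
    rw [Finset.mul_sum]
    apply Finset.sum_congr rfl
    intro u _
    rw [hat_smul]
    ring

lemma Ex_chi (val : (Fin N → ZMod p) → ℂ) (u : Fin N → ZMod p) :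
    Ex val (fun y => chi u y) = val u := by
  classical
  change ∑ u', hat (fun y => chi u y) u' * val u' = val u
  simp only [hat_chi, ite_mul, one_mul, zero_mul]
  rw [Finset.sum_ite_eq']
  simp

/-- Values on characters of a pseudo-expectation. -/
structure PVal (val : (Fin N → ZMod p) → ℂ) (D : ℕ) : Prop where
  one : val 0 = 1
  con : ∀ u, (supp u).card ≤ 2 * D → val (-u) = conj (val u)
  mul : ∀ u u', (supp u).card ≤ 2 * D → (supp u').card ≤ 2 * D → (supp (u + u')).card ≤ 2 * D →
    val u ≠ 0 → val (u + u') = val u * val u'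

lemma supp_add_le (u u' : Fin N → ZMod p) : (supp (u + u')).card ≤ (supp u).card + (supp u').card := by
  unfold supp
  refine le_trans (Finset.card_le_card ?_) (Finset.card_union_le _ _)
  intro e he
  simp only [Finset.mem_filter, Finset.mem_univ, true_and, Finset.mem_union, Pi.add_apply] at he ⊢
  by_contra hcon
  push Not at hcon
  exact he (by rw [hcon.1, hcon.2, add_zero])

lemma supp_neg (u : Fin N → ZMod p) : supp (-u) = supp u := by
  unfold supp
  ext β
  simp

lemma supp_sub_le (u u' : Fin N → ZMod p) : (supp (u - u')).card ≤ (supp u).card + (supp u').card := by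
  rw [sub_eq_add_neg]
  refine (supp_add_le u (-u')).trans ?_
  rw [supp_neg]

/-- The quadratic form is nonnegative. -/
lemma psd {val : (Fin N → ZMod p) → ℂ} {D : ℕ} (hv : PVal val D) (c : (Fin N → ZMod p) → ℂ)
    (hc : ∀ u, D < (supp u).card → c u = 0) :
    0 ≤ (∑ u, ∑ u', c u * conj (c u') * val (u - u')).re := by
  classical
  let B := {u : Fin N → ZMod p // (supp u).card ≤ D}
  have hB : ∀ a b : B, (supp (a.1 - b.1)).card ≤ 2 * D := by
    intro a b
    have := supp_sub_le a.1 b.1
    have := a.2
    have := b.2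
    omega
  let st : Setoid B :=
    { r := fun a b => val (a.1 - b.1) ≠ 0
      iseqv :=
        { refl := fun a => by
            change val (a.1 - a.1) ≠ 0
            rw [sub_self, hv.one]
            exact one_ne_zero
          symm := by
            intro a b h
            change val (b.1 - a.1) ≠ 0
            have h1 := hv.con (a.1 - b.1) (hB a b)
            rw [neg_sub] at h1
            rw [h1]
            simpa using h
          trans := by
            intro a b d h h'
            change val (a.1 - d.1) ≠ 0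
            have h1 := hv.mul (a.1 - b.1) (b.1 - d.1) (hB a b) (hB b d)
              (by rw [sub_add_sub_cancel]; exact hB a d) h
            rw [sub_add_sub_cancel] at h1
            rw [h1]
            exact mul_ne_zero h h' } }
  have hrel : ∀ a b : B, (Quotient.mk st a = Quotient.mk st b) ↔ val (a.1 - b.1) ≠ 0 := by
    intro a b
    rw [Quotient.eq]
    exact Iff.rfl
  let rep : B → B := fun a => (Quotient.mk st a).out
  have hrep : ∀ a : B, val (a.1 - (rep a).1) ≠ 0 := by
    intro a
    rw [← hrel]
    exact (Quotient.out_eq _).symm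
  let f : B → ℂ := fun a => c a.1 * val (a.1 - (rep a).1)
  have hval : ∀ a b : B, Quotient.mk st a = Quotient.mk st b →
      val (a.1 - b.1) = val (a.1 - (rep a).1) * conj (val (b.1 - (rep b).1)) := by
    intro a b hab
    have hr : rep a = rep b := by
      simp only [rep, hab]
    have h1 := hv.mul (a.1 - (rep a).1) ((rep a).1 - b.1) (hB a _) (hB _ b)
      (by rw [sub_add_sub_cancel]; exact hB a b) (hrep a)
    rw [sub_add_sub_cancel] at h1
    rw [h1]
    congr 1
    have h2 := hv.con (b.1 - (rep b).1) (hB b _)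
    rw [neg_sub] at h2
    rw [hr, h2]
  have hsum : ∑ u, ∑ u', c u * conj (c u') * val (u - u')
      = ∑ a : B, ∑ b : B, c a.1 * conj (c b.1) * val (a.1 - b.1) := by
    have hstep : ∀ g : (Fin N → ZMod p) → ℂ, (∀ u, D < (supp u).card → g u = 0) →
        ∑ u, g u = ∑ a : B, g a.1 := by
      intro g hg
      rw [← Finset.sum_subtype (Finset.univ.filter (fun u => (supp u).card ≤ D))
        (fun u => by simp) (fun u => g u)]
      rw [Finset.sum_filter]
      apply Finset.sum_congr rfl
      intro u _
      split_ifs with h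
      · rfl
      · exact hg u (not_le.1 h)
    rw [hstep _ (fun u hu => by
      apply Finset.sum_eq_zero
      intro u' _
      rw [hc u hu, zero_mul, zero_mul])]
    apply Finset.sum_congr rfl
    intro a _
    rw [hstep _ (fun u hu => by rw [hc u hu]; simp)]
  have hfin : ∑ a : B, ∑ b : B, c a.1 * conj (c b.1) * val (a.1 - b.1)
      = ∑ q : Quotient st, ((∑ a : B, if Quotient.mk st a = q then f a else 0)
          * conj (∑ b : B, if Quotient.mk st b = q then f b else 0)) := by
    have h1 : ∀ q : Quotient st, ((∑ a : B, if Quotient.mk st a = q then f a else 0)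
          * conj (∑ b : B, if Quotient.mk st b = q then f b else 0))
        = ∑ a : B, ∑ b : B, if Quotient.mk st a = q then
            (if Quotient.mk st b = q then f a * conj (f b) else 0) else 0 := by
      intro q
      rw [map_sum, Finset.sum_mul]
      apply Finset.sum_congr rfl
      intro a _
      rw [Finset.mul_sum]
      apply Finset.sum_congr rfl
      intro b _
      split_ifs <;> simp
    simp only [h1]
    symm
    rw [Finset.sum_comm]
    apply Finset.sum_congr rfl
    intro a _
    rw [Finset.sum_comm]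
    apply Finset.sum_congr rfl
    intro b _
    rw [Finset.sum_ite_eq]
    simp only [Finset.mem_univ, if_true]
    by_cases hab : Quotient.mk st b = Quotient.mk st a
    · rw [if_pos hab, hval a b hab.symm]
      simp only [f, map_mul]
      ring
    · rw [if_neg hab]
      have : val (a.1 - b.1) = 0 := by
        by_contra h
        exact hab ((hrel a b).2 h).symm
      rw [this, mul_zero]
  rw [hsum, hfin, Complex.re_sum]
  apply Finset.sum_nonneg
  intro q _
  rw [Complex.mul_conj]
  exact Complex.normSq_nonneg _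

/-- Squares have nonnegative pseudo-expectation. -/
lemma Ex_sq {val : (Fin N → ZMod p) → ℂ} {D : ℕ} (hv : PVal val D)
    {q : (Fin N → ZMod p) → ℝ} (hq : BD D (fun y => (q y : ℂ))) :
    0 ≤ (Ex val (fun y => ((q y ^ 2 : ℝ) : ℂ))).re := by
  set c : (Fin N → ZMod p) → ℂ := hat (fun y => (q y : ℂ)) with hc
  have h1 : (fun y => ((q y ^ 2 : ℝ) : ℂ))
      = ∑ u, ∑ u', (c u * conj (c u')) • (fun y => chi (u - u') y) := by
    funext y
    rw [Finset.sum_apply]
    have h2 : ((q y ^ 2 : ℝ) : ℂ) = (q y : ℂ) * conj (q y : ℂ) := by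
      rw [Complex.conj_ofReal]
      push_cast
      ring
    rw [h2, inversion (fun y => (q y : ℂ)) y, map_sum, Finset.sum_mul]
    apply Finset.sum_congr rfl
    intro u _
    rw [Finset.mul_sum, Finset.sum_apply]
    apply Finset.sum_congr rfl
    intro u' _
    simp only [Pi.smul_apply, smul_eq_mul, map_mul]
    rw [sub_eq_add_neg, chi_add_left, chi_neg_left]
    ring
  rw [h1, map_sum]
  simp only [map_sum, map_smul, Ex_chi, smul_eq_mul]
  exact psd hv c (fun u hu => hq u hu)

/-- Functions supported on the assignments which violate a known equation. -/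
lemma Ex_vanish {val : (Fin N → ZMod p) → ℂ} {D D' L : ℕ} (hv : PVal val D)
    {u₁ : Fin N → ZMod p} {t : ZMod p} (hL : (supp u₁).card ≤ L) (hD' : D' + L ≤ 2 * D)
    (hval : ∀ j : ZMod p, val (j • u₁) = ZMod.stdAddChar (j * t))
    {G : (Fin N → ZMod p) → ℂ} (hG : BD D' G) (hG0 : ∀ y, ∑ β, u₁ β * y β = t → G y = 0) :
    Ex val G = 0 := by
  classical
  have hsupp : ∀ j : ZMod p, (supp (j • u₁)).card ≤ L := by
    intro j
    refine le_trans (Finset.card_le_card ?_) hL
    intro β hβ
    simp only [supp, Finset.mem_filter, Finset.mem_univ, true_and, Pi.smul_apply,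
      smul_eq_mul] at hβ ⊢
    intro h
    exact hβ (by rw [h, mul_zero])
  have hne : ∀ j : ZMod p, val (j • u₁) ≠ 0 := by
    intro j
    rw [hval]
    intro h
    have h1 : ZMod.stdAddChar (j * t) * ZMod.stdAddChar (-(j * t)) = (1 : ℂ) := by
      rw [← AddChar.map_add_eq_mul, add_neg_cancel, AddChar.map_zero_eq_one]
    rw [h, zero_mul] at h1
    exact zero_ne_one h1
  have hmul : ∀ j : ZMod p, Ex val (fun y => G y * chi (j • u₁) y) = val (j • u₁) * Ex val G := by
    intro j
    have h1 : (fun y => G y * chi (j • u₁) y)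
        = ∑ u, hat G u • (fun y => chi (j • u₁ + u) y) := by
      funext y
      rw [Finset.sum_apply, inversion G y, Finset.sum_mul]
      apply Finset.sum_congr rfl
      intro u _
      simp only [Pi.smul_apply, smul_eq_mul]
      rw [chi_add_left]
      ring
    rw [h1, map_sum]
    change _ = val (j • u₁) * ∑ u, hat G u * val u
    rw [Finset.mul_sum]
    apply Finset.sum_congr rfl
    intro u _
    rw [map_smul, Ex_chi, smul_eq_mul]
    by_cases hu : D' < (supp u).card
    · rw [hG u hu]; ring
    · have h2 := hsupp j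
      have h3 := supp_add_le (j • u₁) u
      rw [hv.mul (j • u₁) u (by omega) (by omega) (by omega) (hne j)]
      ring
  have hzero : (∑ j : ZMod p, ZMod.stdAddChar (-(j * t)) •
      (fun y => G y * chi (j • u₁) y)) = (0 : (Fin N → ZMod p) → ℂ) := by
    funext y
    rw [Finset.sum_apply]
    simp only [Pi.smul_apply, smul_eq_mul, Pi.zero_apply]
    have h1 : ∀ j : ZMod p, ZMod.stdAddChar (-(j * t)) * (G y * chi (j • u₁) y)
        = G y * ZMod.stdAddChar (j * (∑ β, u₁ β * y β - t)) := by
      intro j
      have h2 : chi (j • u₁) y = ZMod.stdAddChar (j * ∑ β, u₁ β * y β) := by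
        unfold chi
        congr 1
        rw [Finset.mul_sum]
        apply Finset.sum_congr rfl
        intro β _
        simp only [Pi.smul_apply, smul_eq_mul]
        ring
      rw [h2, mul_left_comm, ← AddChar.map_add_eq_mul]
      congr 2
      ring
    rw [Finset.sum_congr rfl (fun j _ => h1 j), ← Finset.mul_sum,
      AddChar.sum_mulShift _ (ZMod.isPrimitive_stdAddChar p)]
    split_ifs with h3
    · rw [hG0 y (sub_eq_zero.1 h3), zero_mul]
    · simp
  have h1 := congrArg (Ex val) hzero
  rw [map_sum, map_zero] at h1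
  have h2 : ∀ j : ZMod p, Ex val (ZMod.stdAddChar (-(j * t)) • (fun y => G y * chi (j • u₁) y))
      = Ex val G := by
    intro j
    rw [map_smul, hmul, hval, smul_eq_mul, ← mul_assoc, ← AddChar.map_add_eq_mul,
      neg_add_cancel, AddChar.map_zero_eq_one, one_mul]
  rw [Finset.sum_congr rfl (fun j _ => h2 j), Finset.sum_const, Finset.card_univ, ZMod.card,
    nsmul_eq_mul] at h1
  rcases mul_eq_zero.1 h1 with h3 | h3
  · exfalso
    have := (Fact.out : p.Prime).ne_zero
    exact this (by exact_mod_cast h3)
  · exact h3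

/-- No sum-of-squares identity. -/
theorem no_sos {val : (Fin N → ZMod p) → ℂ} {D : ℕ} (hv : PVal val D) {ι : Type} (I : Finset ι)
    (G : ι → (Fin N → ZMod p) → ℝ) (hG : ∀ i ∈ I, Ex val (fun y => (G i y : ℂ)) = 0) {t : ℕ}
    (q : Fin t → (Fin N → ZMod p) → ℝ) (hq : ∀ j, BD D (fun y => (q j y : ℂ)))
    (h : ∀ y, ∑ i ∈ I, G i y + ∑ j, q j y ^ 2 = -1) : False := by
  have h1 : (∑ i ∈ I, fun y => (G i y : ℂ)) + ∑ j, (fun y => ((q j y ^ 2 : ℝ) : ℂ))
      = -(fun y => chi (0 : Fin N → ZMod p) y) := by
    funext y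
    have h2 := congrArg (fun r : ℝ => (r : ℂ)) (h y)
    simp only [Pi.add_apply, Finset.sum_apply, Pi.neg_apply, chi_zero_left]
    push_cast at h2 ⊢
    exact h2
  have h2 := congrArg (Ex val) h1
  rw [map_add, map_sum, map_sum, map_neg, Ex_chi, hv.one, Finset.sum_eq_zero hG, zero_add] at h2
  have h3 := congrArg Complex.re h2
  rw [Complex.re_sum] at h3
  have h4 : 0 ≤ ∑ j, (Ex val (fun y => ((q j y ^ 2 : ℝ) : ℂ))).re :=
    Finset.sum_nonneg (fun j _ => Ex_sq hv (hq j))
  rw [h3] at h4
  norm_num at h4

end Pool.Agent.W980.KS
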