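import Mathlib
import Pool.Agent.W980.KS.Defs
import Pool.Agent.W980.KS.Four
import Pool.Agent.W980.KD.Fin

/-!
No clause that is falsified in a state of the adversary has a sum-of-squares proof of small degree.
-/

namespace Pool.Agent.W980.KS

open Finset Pool.Agent.H538R2.SB Pool.Agent.W980.KD ComplexConjugate

variable {m N p s K₀ n d ℓ D : ℕ} {A : Fin m → Fin N → ZMod p} {a : Fin m → ZMod p}
  {blk : Fin n → Fin N} {J : Finset (Fin N)} {x : Asg n}

/-- `c` is a small combination of the rows which is equal to `u` outside of `J` -/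
def Det (A : Fin m → Fin N → ZMod p) (s : ℕ) (J : Finset (Fin N)) (u : Fin N → ZMod p)
    (c : Fin m → ZMod p) : Prop := wt c ≤ 2 * s ∧ ∀ β, β ∉ J → col A c β = u β

/-- the value which the combination `c` forces -/
def phi (A : Fin m → Fin N → ZMod p) (a : Fin m → ZMod p) (blk : Fin n → Fin N)
    (J : Finset (Fin N)) (x : Asg n) (c : Fin m → ZMod p) : ZMod p :=
  ∑ e, c e * a e - ∑ β ∈ J, col A c β * cnt p blk x β

lemma phi_add (c c' : Fin m → ZMod p) :
    phi A a blk J x (c + c') = phi A a blk J x c + phi A a blk J x c' := by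
  unfold phi
  have h1 : ∑ e, (c + c') e * a e = ∑ e, c e * a e + ∑ e, c' e * a e := by
    rw [← Finset.sum_add_distrib]
    apply Finset.sum_congr rfl
    intro e _
    simp only [Pi.add_apply]
    ring
  have h2 : ∑ β ∈ J, col A (c + c') β * cnt p blk x β
      = ∑ β ∈ J, col A c β * cnt p blk x β + ∑ β ∈ J, col A c' β * cnt p blk x β := by
    rw [← Finset.sum_add_distrib]
    apply Finset.sum_congr rfl
    intro β _
    rw [col_add]
    ring
  rw [h1, h2]
  ring

lemma phi_smul (r : ZMod p) (c : Fin m → ZMod p) :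
    phi A a blk J x (r • c) = r * phi A a blk J x c := by
  unfold phi
  rw [mul_sub, Finset.mul_sum, Finset.mul_sum]
  congr 1
  · apply Finset.sum_congr rfl
    intro e _
    simp only [Pi.smul_apply, smul_eq_mul]
    ring
  · apply Finset.sum_congr rfl
    intro β _
    rw [col_smul]
    ring

section

variable [Fact p.Prime]

lemma Det.wt_le (hA : Exp A s K₀) {u : Fin N → ZMod p} {c : Fin m → ZMod p}
    (hu : J.card + (supp u).card ≤ K₀) (h : Det A s J u c) : wt c ≤ s := by
  classical
  have h1 : InL A s (J ∪ supp u) c := by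
    refine ⟨h.1, fun β hβ => ?_⟩
    rw [Finset.mem_union, not_or] at hβ
    rw [h.2 β hβ.1]
    by_contra hne
    exact hβ.2 (Finset.mem_filter.2 ⟨Finset.mem_univ _, hne⟩)
  exact h1.wt_le hA ((Finset.card_union_le _ _).trans hu)

lemma Det.add (hA : Exp A s K₀) {u u' : Fin N → ZMod p} {c c' : Fin m → ZMod p}
    (hu : J.card + (supp u).card ≤ K₀) (hu' : J.card + (supp u').card ≤ K₀)
    (h : Det A s J u c) (h' : Det A s J u' c') : Det A s J (u + u') (c + c') := by
  have h1 := h.wt_le hA hu
  have h2 := h'.wt_le hA hu'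
  have h3 := wt_add_le c c'
  exact ⟨by omega, fun β hβ => by rw [col_add, h.2 β hβ, h'.2 β hβ]; rfl⟩

lemma Det.smul (r : ZMod p) {u : Fin N → ZMod p} {c : Fin m → ZMod p}
    (h : Det A s J u c) : Det A s J (r • u) (r • c) :=
  ⟨(wt_smul_le r c).trans h.1, fun β hβ => by rw [col_smul, h.2 β hβ]; rfl⟩

lemma phi_unique (hA : Exp A s K₀) (hgood : Good A a s blk J x) {u : Fin N → ZMod p}
    {c c' : Fin m → ZMod p} (hu : J.card + (supp u).card ≤ K₀) (h : Det A s J u c)
    (h' : Det A s J u c') : phi A a blk J x c = phi A a blk J x c' := by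
  classical
  have h1 : InL A s J (c + (-1 : ZMod p) • c') := by
    have h2 := h.wt_le hA hu
    have h3 := h'.wt_le hA hu
    have h4 := wt_add_le c ((-1 : ZMod p) • c')
    have h5 := wt_smul_le (-1 : ZMod p) c'
    refine ⟨by omega, fun β hβ => ?_⟩
    rw [col_add, col_smul, h.2 β hβ, h'.2 β hβ]
    ring
  have h2 := hgood _ h1
  have h3 : ∑ β, col A (c + (-1 : ZMod p) • c') β * cnt p blk x β
      = ∑ β ∈ J, col A (c + (-1 : ZMod p) • c') β * cnt p blk x β := by
    symm
    apply Finset.sum_subset (Finset.subset_univ _)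
    intro β _ hβ
    rw [h1.2 β hβ, zero_mul]
  have h4 : phi A a blk J x (c + (-1 : ZMod p) • c') = 0 := by
    unfold phi
    rw [← h3, h2, sub_self]
  rw [phi_add, phi_smul] at h4
  linear_combination h4

open Classical in
/-- the value of the pseudo-expectation on a character -/
noncomputable def valF (A : Fin m → Fin N → ZMod p) (a : Fin m → ZMod p) (blk : Fin n → Fin N)
    (s : ℕ) (J : Finset (Fin N)) (x : Asg n) (u : Fin N → ZMod p) : ℂ :=
  if h : ∃ c, Det A s J u c then ZMod.stdAddChar (phi A a blk J x h.choose) else 0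

lemma valF_eq (hA : Exp A s K₀) (hgood : Good A a s blk J x) {u : Fin N → ZMod p}
    {c : Fin m → ZMod p} (hu : J.card + (supp u).card ≤ K₀) (h : Det A s J u c) :
    valF A a blk s J x u = ZMod.stdAddChar (phi A a blk J x c) := by
  classical
  have hex : ∃ c, Det A s J u c := ⟨c, h⟩
  unfold valF
  rw [dif_pos hex, phi_unique hA hgood hu hex.choose_spec h]

lemma valF_zero {u : Fin N → ZMod p} (h : ¬ ∃ c, Det A s J u c) :
    valF A a blk s J x u = 0 := by
  classical
  unfold valF
  rw [dif_neg h]

lemma valF_ne {u : Fin N → ZMod p} (h : valF A a blk s J x u ≠ 0) : ∃ c, Det A s J u c := by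
  by_contra hcon
  exact h (valF_zero hcon)

lemma pval (hA : Exp A s K₀) (hgood : Good A a s blk J x) (hJ : J.card + 2 * D ≤ K₀) :
    PVal (valF A a blk s J x) D := by
  refine ⟨?_, ?_, ?_⟩
  · have h1 : Det A s J (0 : Fin N → ZMod p) 0 :=
      ⟨by rw [wt_zero]; exact Nat.zero_le _, fun β _ => by rw [col_zero]; rfl⟩
    have h0 : supp (0 : Fin N → ZMod p) = ∅ := by
      unfold supp
      simp
    rw [valF_eq hA hgood (by rw [h0, Finset.card_empty]; omega) h1]
    have h2 : phi A a blk J x (0 : Fin m → ZMod p) = 0 := by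
      unfold phi
      simp [col_zero]
    rw [h2, AddChar.map_zero_eq_one]
  · intro u hu
    by_cases h : ∃ c, Det A s J u c
    · obtain ⟨c, hc⟩ := h
      have h1 : Det A s J (-u) ((-1 : ZMod p) • c) := by
        have := hc.smul (-1 : ZMod p)
        rwa [neg_smul, one_smul] at this
      rw [valF_eq hA hgood (by omega) hc, valF_eq hA hgood (by rw [supp_neg]; omega) h1, phi_smul,
        ← AddChar.map_neg_eq_conj]
      congr 1
      ring
    · have h1 : ¬ ∃ c, Det A s J (-u) c := by
        rintro ⟨c, hc⟩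
        apply h
        refine ⟨(-1 : ZMod p) • c, ?_⟩
        have := hc.smul (-1 : ZMod p)
        rwa [neg_smul, one_smul, neg_neg] at this
      rw [valF_zero h, valF_zero h1, map_zero]
  · intro u u' hu hu' huu hne
    obtain ⟨c, hc⟩ := valF_ne hne
    by_cases h' : ∃ c', Det A s J u' c'
    · obtain ⟨c', hc'⟩ := h'
      have h1 := hc.add hA (by omega) (by omega) hc'
      rw [valF_eq hA hgood (by omega) hc, valF_eq hA hgood (by omega) hc',
        valF_eq hA hgood (by omega) h1, phi_add, AddChar.map_add_eq_mul]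
    · have h1 : ¬ ∃ c, Det A s J (u + u') c := by
        rintro ⟨c'', hc''⟩
        apply h'
        refine ⟨c'' + (-1 : ZMod p) • c, ?_⟩
        have h2 : Det A s J (-u) ((-1 : ZMod p) • c) := by
          have := hc.smul (-1 : ZMod p)
          rwa [neg_smul, one_smul] at this
        have h3 := hc''.add hA (by omega) (by rw [supp_neg]; omega) h2
        rwa [add_neg_cancel_comm] at h3
      rw [valF_zero h', valF_zero h1, mul_zero]

/-- the assignments with prescribed residues outside of `J` -/
lemma exists_decode (U : Fin N → Finset (Fin n))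
    (hU : ∀ β, β ∉ J → (∀ v ∈ U β, blk v = β) ∧ (U β).card = p - 1) :
    ∃ X : (Fin N → ZMod p) → Asg n,
      (∀ y v, blk v ∈ J → X y v = x v) ∧
      (∀ y y' v, y (blk v) = y' (blk v) → X y v = X y' v) ∧
      (∀ y v, v ∉ U (blk v) → X y v = x v) ∧
      (∀ y β, β ∉ J → cnt p blk (X y) β = y β) ∧
      (∀ y β, β ∈ J → cnt p blk (X y) β = cnt p blk x β) := by
  classical
  have h1 : ∀ (β : Fin N) (r : ZMod p), ∃ z : Asg n, β ∉ J →
      (∀ v, v ∉ U β → z v = x v) ∧ cnt p blk z β = r := by
    intro β r
    by_cases hβ : β ∈ J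
    · exact ⟨x, fun h => absurd hβ h⟩
    · obtain ⟨z, hz1, hz2⟩ := realise (p := p) (blk := blk) x β (U β) (hU β hβ).1 (hU β hβ).2 r
      exact ⟨z, fun _ => ⟨hz1, hz2⟩⟩
  choose pat hpat using h1
  refine ⟨fun y v => if blk v ∈ J then x v else pat (blk v) (y (blk v)) v, ?_, ?_, ?_, ?_, ?_⟩
  · intro y v hv
    simp only [hv, if_true]
  · intro y y' v hv
    simp only [hv]
  · intro y v hv
    by_cases hJ : blk v ∈ J
    · simp only [hJ, if_true]
    · simp only [hJ, if_false]
      exact (hpat (blk v) (y (blk v)) hJ).1 v hv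
  · intro y β hβ
    rw [← (hpat β (y β) hβ).2]
    apply cnt_congr
    intro v hv
    have : blk v ∉ J := by rw [hv]; exact hβ
    simp only [this, if_false]
    rw [hv]
  · intro y β hβ
    apply cnt_congr
    intro v hv
    have : blk v ∈ J := by rw [hv]; exact hβ
    simp only [this, if_true]

lemma poly_BD {X : (Fin N → ZMod p) → Asg n} {Ms : Finset (Clause n)}
    (hMs : ∀ K ∈ Ms, ∃ S : Finset (Fin N), S.card ≤ d ∧
      ∀ y y', (∀ β ∈ S, y β = y' β) → mono K (X y) = mono K (X y')) {L : ℕ} {T : Finset (Fin N)}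
    (hT : T.card ≤ L) {g : (Fin N → ZMod p) → ℝ}
    (hg : ∀ y y', (∀ β ∈ T, y β = y' β) → g y = g y') {f : Asg n → ℝ} (hf : PolyOver Ms f) :
    BD (d + L) (fun y => ((f (X y) * g y : ℝ) : ℂ)) := by
  classical
  unfold PolyOver at hf
  induction hf using Submodule.span_induction with
  | mem f hf =>
    obtain ⟨K, hK, rfl⟩ := hf
    obtain ⟨S, hS, hdep⟩ := hMs K hK
    apply BD.of_dep (S := S ∪ T)
    · exact (Finset.card_union_le _ _).trans (by omega)
    · intro y y' hy
      have h1 : mono K (X y) = mono K (X y') :=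
        hdep y y' (fun β hβ => hy β (Finset.mem_union_left _ hβ))
      have h2 : g y = g y' := hg y y' (fun β hβ => hy β (Finset.mem_union_right _ hβ))
      rw [h1, h2]
  | zero =>
    have : (fun y => (((0 : Asg n → ℝ) (X y) * g y : ℝ) : ℂ)) = 0 := by
      funext y
      simp
    rw [this]
    exact BD.zero
  | add f f' _ _ h h' =>
    have : (fun y => (((f + f') (X y) * g y : ℝ) : ℂ))
        = (fun y => ((f (X y) * g y : ℝ) : ℂ)) + (fun y => ((f' (X y) * g y : ℝ) : ℂ)) := by
      funext y
      simp only [Pi.add_apply]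
      push_cast
      ring
    rw [this]
    exact h.add h'
  | smul r f _ h =>
    have : (fun y => (((r • f) (X y) * g y : ℝ) : ℂ))
        = (r : ℂ) • (fun y => ((f (X y) * g y : ℝ) : ℂ)) := by
      funext y
      simp only [Pi.smul_apply, smul_eq_mul]
      push_cast
      ring
    rw [this]
    exact h.smul _

/-- **The leaves.** -/
theorem sos_leaf (hA : Exp A s K₀) (hs : 1 ≤ s) {T : Fin m → Finset (Fin N)}
    (hT1 : ∀ e, (T e).card ≤ ℓ) (hT2 : ∀ e, ∀ β ∉ T e, A e β = 0) {W : Clause n}
    (hJ : J.card + 2 * (d + ℓ) ≤ K₀) (hx : FalseAt W x) (hgood : Good A a s blk J x)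
    (U : Fin N → Finset (Fin n)) (hU : ∀ β, β ∉ J → (∀ v ∈ U β, blk v = β) ∧ (U β).card = p - 1)
    (hUW : ∀ v, v ∈ U (blk v) → v ∉ cvars W) {Ms : Finset (Clause n)}
    (hMs : ∀ K ∈ Ms, (∃ l ∈ K, l.1 ∉ U (blk l.1) ∧ x l.1 = l.2) ∨
      ∃ S : Finset (Fin N), S.card ≤ d ∧ ∀ l ∈ K, l.1 ∈ U (blk l.1) → blk l.1 ∈ S)
    {h : Clause n → Asg n → ℝ} {t : ℕ} {q : Fin t → Asg n → ℝ}
    (hh : ∀ C, PolyOver Ms (h C)) (hq : ∀ j, PolyOver Ms (q j))
    (hid : ∀ x, FalseAt W x → ∑ C ∈ sysCnf p blk A a T, h C x * mono C x + ∑ j, q j x ^ 2 = -1) :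
    False := by
  classical
  obtain ⟨X, hX1, hX2, hX3, hX4, hX5⟩ := exists_decode (x := x) U hU
  have hv : PVal (valF A a blk s J x) (d + ℓ) := pval hA hgood hJ
  have hXW : ∀ y, FalseAt W (X y) := by
    intro y l hl
    rw [hX3 y l.1 (fun hl' => hUW l.1 hl' (mem_cvars.2 ⟨l.2, hl⟩))]
    exact hx l hl
  have hMs' : ∀ K ∈ Ms, ∃ S : Finset (Fin N), S.card ≤ d ∧
      ∀ y y', (∀ β ∈ S, y β = y' β) → mono K (X y) = mono K (X y') := by
    intro K hK
    rcases hMs K hK with ⟨l, hl, h1, h2⟩ | ⟨S, hS, hdep⟩
    · refine ⟨∅, by simp, fun y y' _ => ?_⟩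
      have h3 : ∀ y, ¬ FalseAt K (X y) := by
        intro y hf
        exact hf l hl (by rw [hX3 y l.1 h1, h2])
      unfold mono
      rw [if_neg (h3 y), if_neg (h3 y')]
    · refine ⟨S, hS, fun y y' hy => ?_⟩
      have h3 : ∀ l ∈ K, X y l.1 = X y' l.1 := by
        intro l hl
        by_cases hlU : l.1 ∈ U (blk l.1)
        · exact hX2 y y' l.1 (hy _ (hdep l hl hlU))
        · rw [hX3 y l.1 hlU, hX3 y' l.1 hlU]
      have h4 : FalseAt K (X y) ↔ FalseAt K (X y') := by
        constructor
        · intro hf l hl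
          rw [← h3 l hl]
          exact hf l hl
        · intro hf l hl
          rw [h3 l hl]
          exact hf l hl
      unfold mono
      simp only [h4]
  refine no_sos hv (sysCnf p blk A a T)
    (fun C y => h C (X y) * mono C (X y)) ?_
    (fun j y => q j (X y)) ?_ (fun y => hid (X y) (hXW y))
  · intro C hC
    obtain ⟨e, z, hz, rfl⟩ := mem_sysCnf.1 hC
    set C := clauseOf blk (T e) (Finset.univ.filter (fun v => blk v ∈ T e ∧ z v = true)) with hCdef
    set u₁ : Fin N → ZMod p := fun β => if β ∈ J then 0 else A e β with hu₁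
    have hsu : supp u₁ ⊆ T e := by
      intro β hβ
      by_contra hβT
      apply (Finset.mem_filter.1 hβ).2
      simp only [hu₁]
      split_ifs
      · rfl
      · exact hT2 e β hβT
    have hsuc : (supp u₁).card ≤ ℓ := (Finset.card_le_card hsu).trans (hT1 e)
    set c₁ : Fin m → ZMod p := Pi.single e 1 with hc₁
    have hdet : Det A s J u₁ c₁ := by
      refine ⟨(wt_single e 1).trans (by omega), fun β hβ => ?_⟩
      rw [col_single]
      simp only [hu₁, hβ, if_false]
    have hdetj : ∀ j : ZMod p, Det A s J (j • u₁) (j • c₁) := fun j => hdet.smul j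
    have hsj : ∀ j : ZMod p, (supp (j • u₁)).card ≤ ℓ := by
      intro j
      refine le_trans (Finset.card_le_card ?_) hsuc
      intro β hβ
      simp only [supp, Finset.mem_filter, Finset.mem_univ, true_and, Pi.smul_apply,
        smul_eq_mul] at hβ ⊢
      intro h0
      exact hβ (by rw [h0, mul_zero])
    have hBD : BD (d + ℓ) (fun y => ((h C (X y) * mono C (X y) : ℝ) : ℂ)) := by
      refine poly_BD hMs' (hT1 e) (g := fun y => mono C (X y)) ?_ (hh C)
      intro y y' hy
      have : FalseAt C (X y) ↔ FalseAt C (X y') := by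
        rw [hCdef, falseAt_clauseOf, falseAt_clauseOf]
        constructor
        · intro hag v hv
          rw [← hX2 y y' v (hy _ hv)]
          exact hag v hv
        · intro hag v hv
          rw [hX2 y y' v (hy _ hv)]
          exact hag v hv
      unfold mono
      simp only [this]
    refine Ex_vanish (L := ℓ) (u₁ := u₁) (t := phi A a blk J x c₁) hv hsuc (by omega) ?_ hBD ?_
    · intro j
      rw [valF_eq hA hgood (by have := hsj j; omega) (hdetj j), phi_smul]
    · intro y hy
      have hnf : ¬ FalseAt C (X y) := by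
        intro hf
        rw [hCdef, falseAt_clauseOf] at hf
        apply hz
        have h1 : ∀ β, A e β * cnt p blk z β = A e β * cnt p blk (X y) β := by
          intro β
          by_cases hβ : β ∈ T e
          · congr 1
            apply cnt_congr
            intro v hv
            exact (hf v (by rw [hv]; exact hβ)).symm
          · rw [hT2 e β hβ, zero_mul, zero_mul]
        rw [Finset.sum_congr rfl (fun β _ => h1 β)]
        have h2 : ∑ β, A e β * cnt p blk (X y) β
            = ∑ β, u₁ β * y β + ∑ β ∈ J, A e β * cnt p blk x β := by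
          have h3 : ∑ β ∈ J, A e β * cnt p blk x β
              = ∑ β, if β ∈ J then A e β * cnt p blk x β else 0 := by
            rw [Finset.sum_ite_mem, Finset.univ_inter]
          rw [h3, ← Finset.sum_add_distrib]
          apply Finset.sum_congr rfl
          intro β _
          by_cases hβ : β ∈ J
          · simp only [hu₁, hβ, if_true, zero_mul, zero_add]
            rw [hX5 y β hβ]
          · simp only [hu₁, hβ, if_false, add_zero]
            rw [hX4 y β hβ]
        rw [h2, hy]
        unfold phi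
        have h4 : ∑ e', c₁ e' * a e' = a e := by
          rw [hc₁, Finset.sum_eq_single e]
          · simp
          · intro e' _ hne
            rw [Pi.single_eq_of_ne hne, zero_mul]
          · intro hh'; exact absurd (Finset.mem_univ _) hh'
        have h5 : ∑ β ∈ J, col A c₁ β * cnt p blk x β = ∑ β ∈ J, A e β * cnt p blk x β := by
          apply Finset.sum_congr rfl
          intro β _
          rw [hc₁, col_single]
        rw [h4, h5]
        ring
      have h0 : mono C (X y) = 0 := by
        unfold mono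
        rw [if_neg hnf]
      rw [h0, mul_zero]
      norm_num
  · intro j
    have := poly_BD (L := ℓ) (T := ∅) hMs' (by simp) (g := fun _ => 1) (fun _ _ _ => rfl) (hq j)
    simpa using this

end

end Pool.Agent.W980.KS
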