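import Mathlib
import Pool.Agent.W980.KS.Sos
import Pool.Agent.W980.KS.PathPlay

/-!
No clause that is falsified in a state of the adversary has a short resolution derivation from
clauses with sum-of-squares proofs of small degree.
-/

namespace Pool.Agent.W980.KS

open Finset Pool.Agent.H538R2.SB Pool.Agent.W980.KD

section count

variable {n N : ℕ}

/-- the pairs which avoid a pattern in each of the blocks of `T` -/
def avoid (T : Finset (Fin N)) (τ : Fin N → Bool) (vv : Fin N → Fin n) (b : Fin N → Bool) :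
    Finset ((Fin N → Bool) × (Fin n → Bool)) :=
  Finset.univ.filter (fun ω => ∀ β ∈ T, ¬ (ω.1 β = τ β ∧ ω.2 (vv β) = b β))

lemma avoid_card (T : Finset (Fin N)) (τ : Fin N → Bool) (vv : Fin N → Fin n) (b : Fin N → Bool)
    (hinj : Set.InjOn vv T) :
    (avoid T τ vv b).card * 4 ^ T.card ≤ 3 ^ T.card * (2 ^ N * 2 ^ n) := by
  classical
  induction T using Finset.induction_on with
  | empty =>
    simp only [Finset.card_empty, pow_zero, mul_one, one_mul]
    refine (Finset.card_le_univ _).trans ?_
    simp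
  | insert β T hβ ih =>
    have ih' := ih (hinj.mono (by simp))
    set A' := avoid T τ vv b with hA'
    set A := avoid (insert β T) τ vv b with hA
    have hsub : A ⊆ A' := by
      intro ω hω
      simp only [hA, hA', avoid, Finset.mem_filter, Finset.mem_univ, true_and] at hω ⊢
      exact fun γ hγ => hω γ (Finset.mem_insert_of_mem hγ)
    -- the map
    let f : (Fin N → Bool) × (Fin n → Bool) → ((Fin N → Bool) × (Fin n → Bool)) × (Bool × Bool) :=
      fun ω => ((Function.update ω.1 β (τ β), Function.update ω.2 (vv β) (b β)),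
        (ω.1 β, ω.2 (vv β)))
    have hf : Set.InjOn f A' := by
      intro ω _ ω' _ h
      simp only [f, Prod.mk.injEq] at h
      obtain ⟨⟨h1, h2⟩, h3, h4⟩ := h
      apply Prod.ext
      · funext γ
        by_cases hγ : γ = β
        · rw [hγ]; exact h3
        · have := congrFun h1 γ
          rwa [Function.update_of_ne hγ, Function.update_of_ne hγ] at this
      · funext w
        by_cases hw : w = vv β
        · rw [hw]; exact h4
        · have := congrFun h2 w
          rwa [Function.update_of_ne hw, Function.update_of_ne hw] at this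
    have hmaps : Set.MapsTo f A' (((A' \ A) ×ˢ (Finset.univ : Finset (Bool × Bool)) : Finset _) :
        Set _) := by
      intro ω hω
      rw [Finset.mem_coe] at hω ⊢
      rw [Finset.mem_product]
      refine ⟨?_, Finset.mem_univ _⟩
      rw [Finset.mem_sdiff]
      simp only [hA', avoid, Finset.mem_filter, Finset.mem_univ, true_and] at hω
      constructor
      · simp only [hA', avoid, Finset.mem_filter, Finset.mem_univ, true_and, f]
        intro γ hγ
        have hne : γ ≠ β := by rintro rfl; exact hβ hγ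
        have hne2 : vv γ ≠ vv β := by
          intro h
          exact hne (hinj (Finset.mem_coe.2 (Finset.mem_insert_of_mem hγ))
            (Finset.mem_coe.2 (Finset.mem_insert_self _ _)) h)
        rw [Function.update_of_ne hne, Function.update_of_ne hne2]
        exact hω γ hγ
      · simp only [hA, avoid, Finset.mem_filter, Finset.mem_univ, true_and, f]
        intro h
        exact h β (Finset.mem_insert_self _ _) ⟨by simp, by simp⟩
    have h1 := Finset.card_le_card_of_injOn f hmaps hf
    rw [Finset.card_product, Finset.card_univ, Fintype.card_prod, Fintype.card_bool] at h1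
    have h2 : (A' \ A).card = A'.card - A.card := Finset.card_sdiff_of_subset hsub
    have h3 := Finset.card_le_card hsub
    have h4 : 4 * A.card ≤ 3 * A'.card := by omega
    rw [Finset.card_insert_of_notMem hβ]
    calc A.card * 4 ^ (T.card + 1) = (4 * A.card) * 4 ^ T.card := by rw [pow_succ]; ring
      _ ≤ (3 * A'.card) * 4 ^ T.card := Nat.mul_le_mul_right _ h4
      _ = 3 * (A'.card * 4 ^ T.card) := by ring
      _ ≤ 3 * (3 ^ T.card * (2 ^ N * 2 ^ n)) := Nat.mul_le_mul_left _ ih'
      _ = _ := by rw [pow_succ]; ring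

end count

variable {m N p s K₀ n ℓ s₀ s₁ r₁ : ℕ} {A : Fin m → Fin N → ZMod p} {a : Fin m → ZMod p}
  {blk : Fin n → Fin N}

/-- the variable `v` lies in a block outside of `J` and does not occur in `C` -/
def Free (blk : Fin n → Fin N) (J : Finset (Fin N)) (C : Clause n) (v : Fin n) : Prop :=
  blk v ∉ J ∧ v ∉ cvars C

instance (J : Finset (Fin N)) (C : Clause n) (v : Fin n) : Decidable (Free blk J C v) := by
  unfold Free; infer_instance

/-- the blocks with free variables in `W` -/
def touched (blk : Fin n → Fin N) (J : Finset (Fin N)) (C W : Clause n) : Finset (Fin N) :=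
  (Finset.univ.filter (fun v => Free blk J C v ∧ v ∈ cvars W)).image blk

lemma mem_touched {J : Finset (Fin N)} {C W : Clause n} {β : Fin N} :
    β ∈ touched blk J C W ↔ ∃ v, Free blk J C v ∧ v ∈ cvars W ∧ blk v = β := by
  unfold touched
  simp only [Finset.mem_image, Finset.mem_filter, Finset.mem_univ, true_and, and_assoc]

/-- the clause `W` is not satisfied by the fixed values of the free variables -/
def Alive (blk : Fin n → Fin N) (J : Finset (Fin N)) (C : Clause n)
    (Rs : Bool → Fin N → Finset (Fin n)) (ω : (Fin N → Bool) × (Fin n → Bool))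
    (W : Clause n) : Prop :=
  ∀ l ∈ W, Free blk J C l.1 → l.1 ∉ Rs (ω.1 (blk l.1)) (blk l.1) → ω.2 l.1 ≠ l.2

lemma exists_narrow {J : Finset (Fin N)} {C : Clause n} (Rs : Bool → Fin N → Finset (Fin n))
    (hdisj : ∀ β, Disjoint (Rs true β) (Rs false β)) (L : Finset (Clause n))
    (hL : L.card ≤ s₁) (hs₁ : s₁ * 3 ^ (r₁ + 1) < 4 ^ (r₁ + 1)) :
    ∃ ω : (Fin N → Bool) × (Fin n → Bool), ∀ W ∈ L, Alive blk J C Rs ω W →
      (touched blk J C W).card ≤ r₁ := by
  classical
  by_contra hcon
  push Not at hcon
  -- for every wide clause a family of patterns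
  have hpat : ∀ W : Clause n, ∃ (T : Finset (Fin N)) (τ : Fin N → Bool) (vv : Fin N → Fin n)
      (b : Fin N → Bool), r₁ < (touched blk J C W).card →
      T.card = r₁ + 1 ∧ Set.InjOn vv T ∧ ∀ ω, Alive blk J C Rs ω W → ω ∈ avoid T τ vv b := by
    intro W
    by_cases hW : r₁ < (touched blk J C W).card
    · obtain ⟨T, hT1, hT2⟩ := Finset.exists_subset_card_eq (Nat.succ_le_of_lt hW)
      have hch : ∀ β : Fin N, ∃ (v : Fin n) (bb : Bool), β ∈ T →
          Free blk J C v ∧ (v, bb) ∈ W ∧ blk v = β := by
        intro β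
        by_cases hβ : β ∈ T
        · obtain ⟨v, h1, h2, h3⟩ := mem_touched.1 (hT1 hβ)
          obtain ⟨bb, hbb⟩ := mem_cvars.1 h2
          exact ⟨v, bb, fun _ => ⟨h1, hbb, h3⟩⟩
        · obtain ⟨β', hβ'⟩ : ∃ β', β' ∈ T := Finset.card_pos.1 (by omega)
          obtain ⟨v, h1, h2, h3⟩ := mem_touched.1 (hT1 hβ')
          exact ⟨v, true, fun h => absurd h hβ⟩
      choose vv bb hvb using hch
      refine ⟨T, fun β => decide (vv β ∈ Rs false β), vv, bb, fun _ => ⟨hT2, ?_, ?_⟩⟩
      · intro β hβ β' hβ' h
        rw [← (hvb β (Finset.mem_coe.1 hβ)).2.2, ← (hvb β' (Finset.mem_coe.1 hβ')).2.2, h]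
      · intro ω hω
        simp only [avoid, Finset.mem_filter, Finset.mem_univ, true_and]
        rintro β hβ ⟨h1, h2⟩
        obtain ⟨h3, h4, h5⟩ := hvb β hβ
        refine hω _ h4 h3 ?_ h2
        change vv β ∉ Rs (ω.1 (blk (vv β))) (blk (vv β))
        rw [h5, h1]
        by_cases h6 : vv β ∈ Rs false β
        · rw [decide_eq_true h6]
          exact Finset.disjoint_right.1 (hdisj β) h6
        · rw [decide_eq_false h6]
          exact h6
    · by_cases hN : Nonempty (Fin n)
      · obtain ⟨v⟩ := hN
        exact ⟨∅, fun _ => true, fun _ => v, fun _ => true, fun h => absurd h hW⟩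
      · by_cases hNN : Nonempty (Fin N)
        · -- there are no variables, hence no touched blocks; use the lines of `ω`
          exfalso
          obtain ⟨W', _, _, h3⟩ := hcon (fun _ => true, fun _ => true)
          obtain ⟨β, hβ⟩ := Finset.card_pos.1 (lt_of_le_of_lt (Nat.zero_le _) h3)
          obtain ⟨v, _⟩ := mem_touched.1 hβ
          exact hN ⟨v⟩
        · exact ⟨∅, fun _ => true, fun β => absurd ⟨β⟩ hNN, fun _ => true,
            fun h => absurd h hW⟩
  choose T τ vv b hTb using hpat
  have hcov : (Finset.univ : Finset ((Fin N → Bool) × (Fin n → Bool))) ⊆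
      (L.filter (fun W => r₁ < (touched blk J C W).card)).biUnion
        (fun W => avoid (T W) (τ W) (vv W) (b W)) := by
    intro ω _
    obtain ⟨W, hW, hal, hwide⟩ := hcon ω
    rw [Finset.mem_biUnion]
    exact ⟨W, Finset.mem_filter.2 ⟨hW, hwide⟩, (hTb W hwide).2.2 ω hal⟩
  have h1 := (Finset.card_le_card hcov).trans Finset.card_biUnion_le
  rw [Finset.card_univ, Fintype.card_prod, Fintype.card_fun, Fintype.card_fun, Fintype.card_bool,
    Fintype.card_fin, Fintype.card_fin] at h1
  have h2 : (∑ W ∈ L.filter (fun W => r₁ < (touched blk J C W).card),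
      (avoid (T W) (τ W) (vv W) (b W)).card) * 4 ^ (r₁ + 1)
      ≤ s₁ * (3 ^ (r₁ + 1) * (2 ^ N * 2 ^ n)) := by
    rw [Finset.sum_mul]
    calc ∑ W ∈ L.filter (fun W => r₁ < (touched blk J C W).card),
        (avoid (T W) (τ W) (vv W) (b W)).card * 4 ^ (r₁ + 1)
        ≤ ∑ _W ∈ L.filter (fun W => r₁ < (touched blk J C W).card),
          3 ^ (r₁ + 1) * (2 ^ N * 2 ^ n) := by
          apply Finset.sum_le_sum
          intro W hW
          obtain ⟨h3, h4, _⟩ := hTb W (Finset.mem_filter.1 hW).2
          have := avoid_card (T W) (τ W) (vv W) (b W) h4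
          rwa [h3] at this
      _ = (L.filter (fun W => r₁ < (touched blk J C W).card)).card
          * (3 ^ (r₁ + 1) * (2 ^ N * 2 ^ n)) := by rw [Finset.sum_const, smul_eq_mul]
      _ ≤ _ := Nat.mul_le_mul_right _ ((Finset.card_filter_le _ _).trans hL)
  have h3 : 2 ^ N * 2 ^ n * 4 ^ (r₁ + 1) ≤ s₁ * (3 ^ (r₁ + 1) * (2 ^ N * 2 ^ n)) :=
    (Nat.mul_le_mul_right _ h1).trans h2
  have h4 : s₁ * (3 ^ (r₁ + 1) * (2 ^ N * 2 ^ n)) < 2 ^ N * 2 ^ n * 4 ^ (r₁ + 1) := by
    calc s₁ * (3 ^ (r₁ + 1) * (2 ^ N * 2 ^ n)) = (s₁ * 3 ^ (r₁ + 1)) * (2 ^ N * 2 ^ n) := by ring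
      _ < 4 ^ (r₁ + 1) * (2 ^ N * 2 ^ n) := Nat.mul_lt_mul_of_pos_right hs₁ (by positivity)
      _ = _ := by ring
  omega

lemma good_congr {J : Finset (Fin N)} {x y : Asg n} (h : ∀ v, blk v ∈ J → x v = y v)
    (hx : Good A a s blk J x) : Good A a s blk J y := by
  intro c hc
  rw [← hx c hc]
  apply Finset.sum_congr rfl
  intro β _
  by_cases hβ : β ∈ J
  · congr 1
    apply cnt_congr
    intro v hv
    exact (h v (by rw [hv]; exact hβ)).symm
  · rw [hc.2 β hβ, zero_mul, zero_mul]

theorem mid_leaf [Fact p.Prime] (hA : Exp A s K₀) (hs : 1 ≤ s) {T : Fin m → Finset (Fin N)}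
    (hT1 : ∀ e, (T e).card ≤ ℓ) (hT2 : ∀ e, ∀ β ∉ T e, A e β = 0) {C : Clause n} {x : Asg n}
    {J : Finset (Fin N)} (hJ : J.card + 3 * (r₁ + 1) + 2 * ℓ ≤ K₀)
    (hs₀ : (s₀ + s₀ * s₀) * 3 ^ (r₁ + 1) < 4 ^ (r₁ + 1)) (hx : FalseAt C x)
    (hgood : Good A a s blk J x) (hunk : ∀ β, β ∉ J → 2 * (p - 1) ≤ (unk blk C β).card) :
    ¬ Cheap (sysCnf p blk A a T) s₀ C := by
  classical
  rintro ⟨P, hP⟩
  -- the monomials of the proofs of the axioms
  have hMs : ∀ W : Clause n, ∃ Ms : Finset (Clause n), Ms.card ≤ s₀ ∧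
      (W ∈ P.lines → P.par W = none →
        ∃ (h : Clause n → Asg n → ℝ) (t : ℕ) (q : Fin t → Asg n → ℝ),
          (∀ C, PolyOver Ms (h C)) ∧ (∀ j, PolyOver Ms (q j)) ∧
          ∀ x, FalseAt W x →
            ∑ C ∈ sysCnf p blk A a T, h C x * mono C x + ∑ j, q j x ^ 2 = -1) := by
    intro W
    by_cases h : W ∈ P.lines ∧ P.par W = none
    · obtain ⟨Ms, h1, h2⟩ := P.ax W h.1 h.2
      exact ⟨Ms, h1, fun _ _ => h2⟩
    · exact ⟨∅, by simp, fun h1 h2 => absurd ⟨h1, h2⟩ h⟩
  choose Ms hMs1 hMs2 using hMs
  set L : Finset (Clause n) := P.lines ∪ P.lines.biUnion Ms with hL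
  have hLcard : L.card ≤ s₀ + s₀ * s₀ := by
    refine (Finset.card_union_le _ _).trans (Nat.add_le_add hP ?_)
    refine Finset.card_biUnion_le.trans ?_
    calc ∑ W ∈ P.lines, (Ms W).card ≤ ∑ _W ∈ P.lines, s₀ :=
          Finset.sum_le_sum (fun W _ => hMs1 W)
      _ = P.lines.card * s₀ := by rw [Finset.sum_const, smul_eq_mul]
      _ ≤ s₀ * s₀ := Nat.mul_le_mul_right _ hP
  -- reserved sets
  have hres : ∀ β : Fin N, ∃ R₀ R₁ : Finset (Fin n), Disjoint R₁ R₀ ∧ (β ∉ J →
      R₀ ⊆ unk blk C β ∧ R₁ ⊆ unk blk C β ∧ R₀.card = p - 1 ∧ R₁.card = p - 1) := by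
    intro β
    by_cases hβ : β ∈ J
    · exact ⟨∅, ∅, by simp, fun h => absurd hβ h⟩
    · have h1 := hunk β hβ
      obtain ⟨R₀, h2, h3⟩ := Finset.exists_subset_card_eq (show p - 1 ≤ (unk blk C β).card by omega)
      obtain ⟨R₁, h4, h5⟩ := Finset.exists_subset_card_eq
        (show p - 1 ≤ (unk blk C β \ R₀).card by
          rw [Finset.card_sdiff_of_subset h2]; omega)
      refine ⟨R₀, R₁, ?_, fun _ => ⟨h2, h4.trans Finset.sdiff_subset, h3, h5⟩⟩
      rw [Finset.disjoint_left]
      intro v hv
      exact (Finset.mem_sdiff.1 (h4 hv)).2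
  choose R₀ R₁ hR using hres
  let Rs : Bool → Fin N → Finset (Fin n) := fun b β => if b = true then R₁ β else R₀ β
  have hRs : ∀ b β, β ∉ J → Rs b β ⊆ unk blk C β ∧ (Rs b β).card = p - 1 := by
    intro b β hβ
    obtain ⟨_, h2⟩ := hR β
    obtain ⟨h3, h4, h5, h6⟩ := h2 hβ
    cases b
    · exact ⟨h3, h5⟩
    · exact ⟨h4, h6⟩
  obtain ⟨ω, hω⟩ := exists_narrow (blk := blk) (J := J) (C := C) (r₁ := r₁) Rs
    (fun β => by simpa [Rs] using (hR β).1) L hLcard hs₀
  -- the game
  have hplay : ∀ k : ℕ, ∀ W ∈ P.lines, P.rk W = k → ∀ x' : Asg n, FalseAt W x' →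
      (∀ v, ¬ Free blk J C v → x' v = x v) →
      (∀ v, Free blk J C v → v ∉ Rs (ω.1 (blk v)) (blk v) → x' v = ω.2 v) →
      Good A a s blk (J ∪ touched blk J C W) x' → False := by
    intro k
    induction k using Nat.strong_induction_on with
    | _ k ih =>
      intro W hW hk x' hx' hnf hfr hgd
      have hnarrow : (touched blk J C W).card ≤ r₁ := by
        apply hω W (Finset.mem_union_left _ hW)
        intro l hl h1 h2
        rw [← hfr l.1 h1 h2]
        exact hx' l hl
      have hcardJ : (J ∪ touched blk J C W).card ≤ J.card + r₁ :=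
        (Finset.card_union_le _ _).trans (by omega)
      rcases hpar : P.par W with _ | ⟨v, C₀, C₁⟩
      · obtain ⟨h, t, q, hh, hq, hid⟩ := hMs2 W hW hpar
        set J' := J ∪ touched blk J C W with hJ'
        set U : Fin N → Finset (Fin n) := fun β => if β ∈ J' then ∅ else Rs (ω.1 β) β with hU
        have hUmem : ∀ v, v ∈ U (blk v) → blk v ∉ J' ∧ v ∈ Rs (ω.1 (blk v)) (blk v) ∧
            Free blk J C v := by
          intro v hv
          simp only [hU] at hv
          split_ifs at hv with h1
          · simp at hv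
          · have h2 : blk v ∉ J := fun h3 => h1 (Finset.mem_union_left _ h3)
            have h3 := (hRs (ω.1 (blk v)) (blk v) h2).1 hv
            simp only [unk, Finset.mem_filter, Finset.mem_univ, true_and] at h3
            exact ⟨h1, hv, h2, h3⟩
        refine sos_leaf (d := r₁) hA hs hT1 hT2 (J := J') (by omega) hx' hgd U ?_ ?_
          (Ms := Ms W) ?_ hh hq hid
        · intro β hβ
          have h2 : β ∉ J := fun h3 => hβ (Finset.mem_union_left _ h3)
          obtain ⟨h3, h4⟩ := hRs (ω.1 β) β h2
          simp only [hU, hβ, if_false]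
          refine ⟨fun v hv => ?_, h4⟩
          have := h3 hv
          simp only [unk, Finset.mem_filter, Finset.mem_univ, true_and] at this
          exact this.1
        · intro v hv hvW
          obtain ⟨h1, h2, h3⟩ := hUmem v hv
          exact h1 (Finset.mem_union_right _ (mem_touched.2 ⟨v, h3, hvW, rfl⟩))
        · intro K hK
          by_cases hal : Alive blk J C Rs ω K
          · right
            refine ⟨touched blk J C K, hω K (Finset.mem_union_right _
              (Finset.mem_biUnion.2 ⟨W, hW, hK⟩)) hal, ?_⟩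
            intro l hl hlU
            obtain ⟨h1, h2, h3⟩ := hUmem l.1 hlU
            exact mem_touched.2 ⟨l.1, h3, mem_cvars.2 ⟨l.2, hl⟩, rfl⟩
          · left
            unfold Alive at hal
            push Not at hal
            obtain ⟨l, hl, h1, h2, h3⟩ := hal
            refine ⟨l, hl, ?_, ?_⟩
            · intro hlU
              exact h2 (hUmem l.1 hlU).2.1
            · rw [hfr l.1 h1 h2, h3]
      · obtain ⟨hC₀, hC₁, hs0, hs1, hr0, hr1⟩ := P.res W hW v C₀ C₁ hpar
        -- the new assignment
        obtain ⟨x'', hx'', hnf', hfr', J'', hJ''1, hJ''2, hJ''3⟩ : ∃ x'' : Asg n,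
            FalseAt W x'' ∧
            (∀ v, ¬ Free blk J C v → x'' v = x v) ∧
            (∀ v, Free blk J C v → v ∉ Rs (ω.1 (blk v)) (blk v) → x'' v = ω.2 v) ∧
            ∃ J'' : Finset (Fin N), J ∪ touched blk J C W ⊆ J'' ∧
              (Free blk J C v → blk v ∈ J'') ∧ Good A a s blk J'' x'' := by
          by_cases hcase : Free blk J C v ∧ blk v ∉ J ∪ touched blk J C W
          · obtain ⟨hfv, hvn⟩ := hcase
            obtain ⟨hU1, hU2⟩ := hRs (ω.1 (blk v)) (blk v) hfv.1
            obtain ⟨x'', h1, h2⟩ := good_extend hA x' (J ∪ touched blk J C W) (blk v)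
              (Rs (ω.1 (blk v)) (blk v)) hgd (by omega) hvn
              (fun w hw => by
                have := hU1 hw
                simp only [unk, Finset.mem_filter, Finset.mem_univ, true_and] at this
                exact this.1) hU2
            have hUfree : ∀ w ∈ Rs (ω.1 (blk v)) (blk v), Free blk J C w ∧ blk w = blk v := by
              intro w hw
              have := hU1 hw
              simp only [unk, Finset.mem_filter, Finset.mem_univ, true_and] at this
              exact ⟨⟨by rw [this.1]; exact hfv.1, this.2⟩, this.1⟩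
            refine ⟨x'', ?_, ?_, ?_, insert (blk v) (J ∪ touched blk J C W),
              Finset.subset_insert _ _, fun _ => Finset.mem_insert_self _ _, h2⟩
            · intro l hl
              rw [h1 l.1]
              · exact hx' l hl
              · intro hlU
                obtain ⟨h3, h4⟩ := hUfree l.1 hlU
                apply hvn
                rw [Finset.mem_union]
                exact Or.inr (mem_touched.2 ⟨l.1, h3, mem_cvars.2 ⟨l.2, hl⟩, h4⟩)
            · intro w hw
              rw [h1 w (fun hwU => hw (hUfree w hwU).1)]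
              exact hnf w hw
            · intro w hw hwn
              rw [h1 w]
              · exact hfr w hw hwn
              · intro hwU
                apply hwn
                rw [(hUfree w hwU).2]
                exact hwU
          · refine ⟨x', hx', hnf, hfr, J ∪ touched blk J C W, subset_rfl, ?_, hgd⟩
            intro hfv
            by_contra hvn
            exact hcase ⟨hfv, hvn⟩
        obtain ⟨C', hC', hr', hfx', bb, hsub⟩ : ∃ C' ∈ P.lines, P.rk C' < P.rk W ∧
            FalseAt C' x'' ∧ ∃ bb, C' ⊆ insert (v, bb) W := by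
          by_cases hv : x'' v = true
          · exact ⟨C₁, hC₁, hr1, falseAt_step hs1 hx'' (by rw [hv]; decide), _, hs1⟩
          · exact ⟨C₀, hC₀, hr0, falseAt_step hs0 hx'' hv, _, hs0⟩
        refine ih (P.rk C') (by omega) C' hC' rfl x'' hfx' hnf' hfr' ?_
        refine good_mono J'' _ x'' ?_ hJ''3
        intro β hβ
        rw [Finset.mem_union] at hβ
        rcases hβ with hβ | hβ
        · exact hJ''1 (Finset.mem_union_left _ hβ)
        · obtain ⟨w, hw1, hw2, hw3⟩ := mem_touched.1 hβ
          obtain ⟨b', hb'⟩ := mem_cvars.1 hw2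
          rcases Finset.mem_insert.1 (hsub hb') with h1 | h1
          · have h2 : w = v := congrArg Prod.fst h1
            rw [← hw3, h2]
            exact hJ''2 (h2 ▸ hw1)
          · exact hJ''1 (Finset.mem_union_right _
              (mem_touched.2 ⟨w, hw1, mem_cvars.2 ⟨b', h1⟩, hw3⟩))
  -- start
  refine hplay (P.rk C) C P.last rfl (fun v => if Free blk J C v then ω.2 v else x v) ?_ ?_ ?_ ?_
  · intro l hl
    have : ¬ Free blk J C l.1 := fun h => h.2 (mem_cvars.2 ⟨l.2, hl⟩)
    simp only [this, if_false]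
    exact hx l hl
  · intro v hv
    simp only [hv, if_false]
  · intro v hv _
    simp only [hv, if_true]
  · have h0 : touched blk J C C = ∅ := by
      rw [Finset.eq_empty_iff_forall_notMem]
      intro β hβ
      obtain ⟨v, h1, h2, _⟩ := mem_touched.1 hβ
      exact h1.2 h2
    rw [h0, Finset.union_empty]
    refine good_congr ?_ hgood
    intro v hv
    have : ¬ Free blk J C v := fun h => h.1 hv
    simp only [this, if_false]

end Pool.Agent.W980.KS
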