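import Mathlib
import Pool.Agent.W980.KS.Fin
import Pool.Agent.W980.KD.Main

/-!
Choice of the parameters.
-/

namespace Pool.Agent.W980.KS

open Finset Pool.Agent.H538R2.SB Pool.Agent.W980.KD

theorem main_ks (ε : ℝ) (hε : 0 < ε) :
    ∃ M k₀ : ℕ, 0 < M ∧ ∀ k n : ℕ, k₀ ≤ k → M * k ≤ n → ∃ F : Finset (Clause n),
      (∀ C ∈ F, C.card ≤ k) ∧ F.card ≤ n * 2 ^ k ∧
      (∀ x : Asg n, ∃ C ∈ F, FalseAt C x) ∧
      ∀ s₀ : ℕ, s₀ ^ (M * k) ≤ 2 ^ n →
      ∀ R : Derivation (Cheap F s₀) ∅, (∀ (h : List (Fin n)) (W : Clause n), R.Path ∅ h W →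
          ∃ V : Finset (Fin n), M * V.card ≤ n ∧ M * (h.filter (fun v => v ∉ V)).length ≤ k * n) →
        (2 : ℝ) ^ ((1 - ε) * n) < R.lines.card := by
  obtain ⟨h, hh3, hhε⟩ : ∃ h : ℕ, 4 ≤ h ∧ 8 / (h : ℝ) < ε := by
    obtain ⟨h, hh⟩ := exists_nat_gt (8 / ε)
    refine ⟨h + 4, by omega, ?_⟩
    rw [div_lt_iff₀ hε] at hh
    have : (0 : ℝ) < ((h + 4 : ℕ) : ℝ) := by positivity
    rw [div_lt_iff₀ this]
    push_cast
    nlinarith
  obtain ⟨p, hpge, hp⟩ := Nat.exists_infinite_primes (2 ^ (48 * h) + 1)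
  have : Fact p.Prime := ⟨hp⟩
  set ℓ : ℕ := 1536 * h ^ 2 with hℓ
  set κ : ℕ := 2 * (p - 1) with hκ
  set L : ℕ := 2 * h with hL
  set M : ℕ := 64 * ℓ * h ^ 2 * L * (κ + 1) + 64 * h with hM
  set k₀ : ℕ := 16 * ℓ * L * h * (κ + 1) with hk₀
  have hh2 : 1 ≤ h ^ 2 := Nat.one_le_pow _ _ (by omega)
  have hℓ1 : 1 ≤ ℓ := by omega
  have hLh : 1 ≤ L * h * (κ + 1) := Nat.mul_pos (Nat.mul_pos (by omega) (by omega)) (by omega)
  refine ⟨M, k₀, by omega, ?_⟩
  intro k n hk hn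
  -- basic facts on k
  have hk1 : 16 * ℓ ≤ k := by
    calc 16 * ℓ = 16 * ℓ * 1 := by ring
      _ ≤ 16 * ℓ * (L * h * (κ + 1)) := Nat.mul_le_mul_left _ hLh
      _ = k₀ := by rw [hk₀]; ring
      _ ≤ k := hk
  have hk0 : 0 < k := by omega
  have hM1 : 1 ≤ M := by omega
  have hkn : k ≤ n := (Nat.le_mul_of_pos_left k (by omega)).trans hn
  have hn1 : 1 ≤ n := by omega
  set N : ℕ := 2 * ℓ * n / k + 1 with hN
  have hNpos : 0 < N := Nat.succ_pos _
  have hNk1 : 2 * ℓ * n ≤ N * k := by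
    have h1 := Nat.lt_mul_div_succ (2 * ℓ * n) hk0
    have h2 : k * (2 * ℓ * n / k + 1) = N * k := by rw [hN]; ring
    omega
  have hNk2 : N * k ≤ 4 * ℓ * n := by
    have h1 := Nat.mul_div_le (2 * ℓ * n) k
    have h2 : N * k = k * (2 * ℓ * n / k) + k := by rw [hN]; ring
    have h3 : n ≤ ℓ * n := Nat.le_mul_of_pos_left n (by omega)
    have h4 : 4 * ℓ * n = 2 * ℓ * n + 2 * (ℓ * n) := by ring
    omega
  have hN64 : 64 * h ≤ N := by
    have h1 : 64 * h * k ≤ N * k := by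
      calc 64 * h * k ≤ M * k := Nat.mul_le_mul_right _ (by omega)
        _ ≤ n := hn
        _ ≤ 2 * ℓ * n := Nat.le_mul_of_pos_left n (by omega)
        _ ≤ N * k := hNk1
    exact Nat.le_of_mul_le_mul_right h1 hk0
  have h2Nn : 2 * N ≤ n := by
    have h1 : 4 * ℓ * (2 * N) ≤ 4 * ℓ * n := by
      calc 4 * ℓ * (2 * N) = N * (8 * ℓ) := by ring
        _ ≤ N * k := Nat.mul_le_mul_left _ (by omega)
        _ ≤ _ := hNk2
    exact Nat.le_of_mul_le_mul_left h1 (by omega)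
  set b : ℕ := n / N with hb
  have hNb : N * b ≤ n := Nat.mul_div_le n N
  have hnb : n < N * (b + 1) := Nat.lt_mul_div_succ n hNpos
  have hkb1 : 2 * ℓ * b ≤ k := by
    have h1 : N * (2 * ℓ * b) ≤ N * k := by
      calc N * (2 * ℓ * b) = 2 * ℓ * (N * b) := by ring
        _ ≤ 2 * ℓ * n := Nat.mul_le_mul_left _ hNb
        _ ≤ N * k := hNk1
    exact Nat.le_of_mul_le_mul_left h1 hNpos
  have hkb2 : k < 4 * ℓ * (b + 1) := by
    have h1 : n * k < n * (4 * ℓ * (b + 1)) := by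
      calc n * k < (N * (b + 1)) * k := Nat.mul_lt_mul_of_pos_right hnb hk0
        _ = (N * k) * (b + 1) := by ring
        _ ≤ (4 * ℓ * n) * (b + 1) := Nat.mul_le_mul_right _ hNk2
        _ = _ := by ring
    exact Nat.lt_of_mul_lt_mul_left h1
  have hb1 : 1 ≤ b := by
    by_contra hb0
    have hb00 : b = 0 := Nat.eq_zero_of_not_pos hb0
    rw [hb00, zero_add, mul_one] at hkb2
    have : 4 * ℓ ≤ 16 * ℓ := Nat.mul_le_mul_right _ (by norm_num)
    exact absurd (hkb2.trans_le (this.trans hk1)) (lt_irrefl _)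
  have hkb3 : k < 8 * ℓ * b := by
    have h1 : 4 * ℓ * (b + 1) ≤ 4 * ℓ * (2 * b) := Nat.mul_le_mul_left _ (by omega)
    have h2 : 4 * ℓ * (2 * b) = 8 * ℓ * b := by ring
    omega
  have hbκ : 2 * (L * h * (κ + 1)) ≤ b := by
    have h1 : 8 * ℓ * (2 * (L * h * (κ + 1))) < 8 * ℓ * b := by
      calc 8 * ℓ * (2 * (L * h * (κ + 1))) = k₀ := by rw [hk₀]; ring
        _ ≤ k := hk
        _ < _ := hkb3
    exact (Nat.lt_of_mul_lt_mul_left h1).le
  have hbh : h ≤ b := by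
    have h1 : h ≤ L * h * (κ + 1) := by
      calc h = 1 * h * 1 := by ring
        _ ≤ L * h * (κ + 1) := Nat.mul_le_mul (Nat.mul_le_mul_right _ (by omega)) (by omega)
    omega
  have hb2κ : 2 * κ ≤ b := by
    have h1 : κ + 1 ≤ L * h * (κ + 1) := Nat.le_mul_of_pos_left _ (Nat.mul_pos (by omega) (by omega))
    omega
  set g : ℕ := b / h with hg
  have hgg2 : 2 ≤ g := by
    rw [hg, Nat.le_div_iff_mul_le (by omega)]
    have h1 : h ≤ L * h * (κ + 1) := by
      calc h = 1 * h * 1 := by ring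
        _ ≤ L * h * (κ + 1) := Nat.mul_le_mul (Nat.mul_le_mul_right _ (by omega)) (by omega)
    omega
  have hg1 : 1 ≤ g := by omega
  set g₂ : ℕ := g / 2 with hg₂
  have hg₂1 : 1 ≤ g₂ := by
    rw [hg₂, Nat.le_div_iff_mul_le (by omega)]; omega
  have hg₂2 : 2 * g₂ ≤ g := Nat.mul_div_le g 2
  have hg₂3 : g ≤ 3 * g₂ := by
    have := Nat.lt_mul_div_succ g (show 0 < 2 by omega)
    omega
  have hhg : h * g ≤ b := Nat.mul_div_le b h
  have hhg2 : b ≤ 2 * h * g := by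
    have h1 := Nat.lt_mul_div_succ b (show 0 < h by omega)
    have h2 : h * (b / h + 1) ≤ h * (2 * g) := Nat.mul_le_mul_left _ (by omega)
    have h3 : h * (2 * g) = 2 * h * g := by ring
    omega
  have h2g : 2 * g ≤ b := by
    have : 2 * g ≤ h * g := Nat.mul_le_mul_right _ (by omega)
    omega
  have hgb : g + κ ≤ b := by omega
  set t : ℕ := N / (4 * h) with ht
  have ht1 : 4 * h * t ≤ N := Nat.mul_div_le N (4 * h)
  have ht16 : 16 ≤ t := by
    rw [ht, Nat.le_div_iff_mul_le (by omega)]; omega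
  have ht2 : N ≤ 8 * h * t := by
    have h1 := Nat.lt_mul_div_succ N (show 0 < 4 * h by omega)
    have h2 : 4 * h * (N / (4 * h) + 1) ≤ 4 * h * (2 * t) := Nat.mul_le_mul_left _ (by omega)
    have h3 : 4 * h * (2 * t) = 8 * h * t := by ring
    omega
  have h2tN : 3 * t ≤ N := by
    have : 3 * t ≤ 4 * h * t := Nat.mul_le_mul_right _ (by omega)
    omega
  set s : ℕ := t / 4 with hs
  have hs4 : 4 * s ≤ t := Nat.mul_div_le t 4
  have hs8 : t ≤ 8 * s := by
    have h1 := Nat.lt_mul_div_succ t (show 0 < 4 by omega)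
    omega
  have hs1 : 1 ≤ s := by omega
  have hsN : N ≤ 64 * h * s := by
    calc N ≤ 8 * h * t := ht2
      _ ≤ 8 * h * (8 * s) := Nat.mul_le_mul_left _ hs8
      _ = _ := by ring
  have hposc : 3 * N ^ 2 ≤ t * (s * ℓ) := by
    calc 3 * N ^ 2 = 3 * (N * N) := by ring
      _ ≤ 3 * ((8 * h * t) * (64 * h * s)) :=
          Nat.mul_le_mul_left _ (Nat.mul_le_mul ht2 hsN)
      _ = t * (s * ℓ) := by rw [hℓ]; ring
  have hc1 := pos_cond (m := 2 * N) (s := s) (ℓ := ℓ) hNpos (by omega : t ≤ N) rfl hposc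
  have hc2 := coef_cond (N := N) (t := t) (s := s) (h := h) (p := p) hNpos (by omega) ht2 hs4
  have hp1 : 1 ≤ p := hp.one_lt.le
  have hc3 : 2 ^ (2 * N) * p ^ (2 * s) < p ^ (2 * N - N) := by
    calc 2 ^ (2 * N) * p ^ (2 * s) ≤ 2 ^ (2 * N) * p ^ (2 * s) * 2 ^ N :=
          Nat.le_mul_of_pos_right _ (by positivity)
      _ < p ^ t := hc2
      _ ≤ p ^ (2 * N - N) := Nat.pow_le_pow_right hp1 (by omega)
  -- the total loss
  set W : ℕ := (N - 3 * t) * (g + κ) + 3 * t * (b + 1) with hW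
  have hNκ : L * h * (N * κ) ≤ n := by
    have h1 : 4 * ℓ * (L * h * (N * κ)) ≤ 4 * ℓ * n := by
      calc 4 * ℓ * (L * h * (N * κ)) = N * (4 * ℓ * (L * h * κ)) := by ring
        _ ≤ N * k := by
            apply Nat.mul_le_mul_left
            refine le_trans ?_ hk
            rw [hk₀]
            calc 4 * ℓ * (L * h * κ) ≤ 16 * ℓ * (L * h * (κ + 1)) :=
                  Nat.mul_le_mul (Nat.mul_le_mul_right _ (by omega))
                    (Nat.mul_le_mul_left _ (by omega))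
              _ = _ := by ring
        _ ≤ _ := hNk2
    exact Nat.le_of_mul_le_mul_left h1 (by omega)
  have hhW : h * W ≤ 4 * n := by
    have e1 : h * ((N - 3 * t) * g) ≤ n := by
      calc h * ((N - 3 * t) * g) = (N - 3 * t) * (h * g) := by ring
        _ ≤ N * b := Nat.mul_le_mul (Nat.sub_le _ _) hhg
        _ ≤ n := hNb
    have e2 : h * ((N - 3 * t) * κ) ≤ n := by
      calc h * ((N - 3 * t) * κ) ≤ h * (N * κ) :=
            Nat.mul_le_mul_left _ (Nat.mul_le_mul_right _ (Nat.sub_le _ _))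
        _ = 1 * (h * (N * κ)) := by ring
        _ ≤ L * (h * (N * κ)) := Nat.mul_le_mul_right _ (by omega)
        _ = L * h * (N * κ) := by ring
        _ ≤ n := hNκ
    have e3 : h * (3 * t * (b + 1)) ≤ 2 * n := by
      calc h * (3 * t * (b + 1)) ≤ h * (4 * t * (2 * b)) := by
            apply Nat.mul_le_mul_left
            exact Nat.mul_le_mul (by omega) (by omega)
        _ = 2 * ((4 * h * t) * b) := by ring
        _ ≤ 2 * (N * b) := Nat.mul_le_mul_left _ (Nat.mul_le_mul_right _ ht1)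
        _ ≤ 2 * n := Nat.mul_le_mul_left _ hNb
    have e4 : h * W = h * ((N - 3 * t) * g) + h * ((N - 3 * t) * κ) + h * (3 * t * (b + 1)) := by
      rw [hW]; ring
    omega
  have hWn : W ≤ n := by
    have h1 : 4 * W ≤ 4 * n := (Nat.mul_le_mul_right _ hh3).trans hhW
    omega
  obtain ⟨F, hF1, hF2, hF3, hF4⟩ := finite_ks (p := p) (m := 2 * N) (s := s) (ℓ := ℓ) (b := b)
    (g := g) (g₂ := g₂) (wmin := n - W) (t := t) (rblk n N hNpos) hs1 (by omega) h2tN hg1
    hg₂2 hg₂1 hc1 hc2 hc3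
    (by
      intro β
      have := vars_lower (n := n) hNpos {β}
      rw [blk_card_eq]
      simpa using this)
    (by
      intro β
      have := vars_upper (n := n) hNpos {β}
      rw [blk_card_eq]
      simpa using this)
    hgb (by rw [← hκ, ← hW]; omega)
  have hwidth : ℓ * (b + 1) ≤ k := by
    have h1 : 2 * (ℓ * (b + 1)) = 2 * ℓ * b + 2 * ℓ := by ring
    omega
  refine ⟨F, fun C hC => (hF1 C hC).trans hwidth, ?_, hF3, ?_⟩
  · refine hF2.trans (Nat.mul_le_mul h2Nn ?_)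
    exact Nat.pow_le_pow_right (by norm_num) hwidth
  intro s₀ hs₀ R hpath
  rw [← hκ] at hF4
  -- the parameters of the axioms
  set r : ℕ := t / 4 with hr
  have hr1 : 1 ≤ r := by
    rw [hr, Nat.le_div_iff_mul_le (by omega)]; omega
  have hrt : 4 * r ≤ t := Nat.mul_div_le t 4
  have htr : t ≤ 8 * r := by
    have := Nat.lt_mul_div_succ t (show 0 < 4 by omega)
    omega
  have hM64 : 64 * h ≤ M := by omega
  have h8ℓ : 8 * ℓ ≤ t := by
    have h1 : k * (64 * h * ℓ) ≤ k * (8 * h * t) := by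
      calc k * (64 * h * ℓ) = ℓ * (64 * h * k) := by ring
        _ ≤ ℓ * (M * k) := Nat.mul_le_mul_left _ (Nat.mul_le_mul_right _ hM64)
        _ ≤ ℓ * n := Nat.mul_le_mul_left _ hn
        _ ≤ 2 * ℓ * n := Nat.mul_le_mul_right _ (by omega)
        _ ≤ N * k := hNk1
        _ ≤ (8 * h * t) * k := Nat.mul_le_mul_right _ ht2
        _ = k * (8 * h * t) := by ring
    have h2 : 64 * h * ℓ ≤ 8 * h * t := Nat.le_of_mul_le_mul_left h1 hk0
    have h3 : 8 * h * (8 * ℓ) ≤ 8 * h * t := by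
      calc 8 * h * (8 * ℓ) = 64 * h * ℓ := by ring
        _ ≤ _ := h2
    exact Nat.le_of_mul_le_mul_left h3 (by omega)
  have hrd : 3 * r + 2 * ℓ ≤ t := by omega
  have hℓ5 : 5 ≤ ℓ := by omega
  have hrMk : 9 * n ≤ r * (M * k) := by
    have h1 : 64 * h * (9 * n) ≤ 64 * h * (r * (M * k)) := by
      calc 64 * h * (9 * n) ≤ M * (2 * (ℓ * n)) := by
            have h3 : 9 * n ≤ 2 * (ℓ * n) := by
              have : 5 * n ≤ ℓ * n := Nat.mul_le_mul_right _ hℓ5
              omega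
            calc 64 * h * (9 * n) ≤ 64 * h * (2 * (ℓ * n)) := Nat.mul_le_mul_left _ h3
              _ ≤ M * (2 * (ℓ * n)) := Nat.mul_le_mul_right _ hM64
        _ = M * (2 * ℓ * n) := by ring
        _ ≤ M * (N * k) := Nat.mul_le_mul_left _ hNk1
        _ ≤ M * ((8 * h * (8 * r)) * k) := by
            apply Nat.mul_le_mul_left
            apply Nat.mul_le_mul_right
            exact ht2.trans (Nat.mul_le_mul_left _ htr)
        _ = _ := by ring
    exact Nat.le_of_mul_le_mul_left h1 (by omega)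
  have hs₀r : (s₀ + s₀ * s₀) * 3 ^ r < 4 ^ r := by
    by_contra hcon
    push Not at hcon
    have hMk : 0 < M * k := Nat.mul_pos (by omega) hk0
    have h0 : s₀ + s₀ * s₀ ≤ 2 * s₀ ^ 2 := by
      have h01 : s₀ ≤ s₀ ^ 2 := Nat.le_self_pow (by norm_num) s₀
      have h02 : s₀ * s₀ = s₀ ^ 2 := by ring
      omega
    have h1 : (4 ^ r) ^ (3 * (M * k)) ≤ (2 * s₀ ^ 2 * 3 ^ r) ^ (3 * (M * k)) :=
      Nat.pow_le_pow_left (hcon.trans (Nat.mul_le_mul_right _ h0)) _
    have h2 : (4 ^ r) ^ (3 * (M * k)) = 64 ^ (r * (M * k)) := by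
      rw [show (64 : ℕ) = 4 ^ 3 by norm_num, ← pow_mul, ← pow_mul]
      congr 1
      ring
    have h3 : (2 * s₀ ^ 2 * 3 ^ r) ^ (3 * (M * k))
        = (2 ^ (3 * (M * k)) * (s₀ ^ (M * k)) ^ 6) * 27 ^ (r * (M * k)) := by
      rw [mul_pow, mul_pow, show (27 : ℕ) = 3 ^ 3 by norm_num, ← pow_mul, ← pow_mul, ← pow_mul,
        ← pow_mul]
      congr 2
      · congr 1
        ring
      · ring
    have h4 : 2 ^ (3 * (M * k)) * (s₀ ^ (M * k)) ^ 6 ≤ 2 ^ (r * (M * k)) := by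
      calc 2 ^ (3 * (M * k)) * (s₀ ^ (M * k)) ^ 6 ≤ 2 ^ (3 * n) * (2 ^ n) ^ 6 := by
            apply Nat.mul_le_mul
            · exact Nat.pow_le_pow_right (by norm_num) (by omega)
            · exact Nat.pow_le_pow_left hs₀ 6
        _ = 2 ^ (9 * n) := by rw [← pow_mul, ← pow_add]; congr 1; ring
        _ ≤ _ := Nat.pow_le_pow_right (by norm_num) hrMk
    have h5 : 64 ^ (r * (M * k)) ≤ 54 ^ (r * (M * k)) := by
      calc 64 ^ (r * (M * k)) ≤ (2 ^ (3 * (M * k)) * (s₀ ^ (M * k)) ^ 6) * 27 ^ (r * (M * k)) := by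
            rw [← h2, ← h3]; exact h1
        _ ≤ 2 ^ (r * (M * k)) * 27 ^ (r * (M * k)) := Nat.mul_le_mul_right _ h4
        _ = 54 ^ (r * (M * k)) := by rw [← mul_pow, show 2 * 27 = 54 from rfl]
    have h6 : 54 ^ (r * (M * k)) < 64 ^ (r * (M * k)) :=
      Nat.pow_lt_pow_left (by norm_num) (Nat.mul_pos hr1 hMk).ne'
    omega
  set Q : ℕ := k * n / M with hQ
  set Vn : ℕ := n / M with hVn
  have hMQ : M * Q ≤ k * n := Nat.mul_div_le _ _
  have hMV : M * Vn ≤ n := Nat.mul_div_le _ _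
  have hpath' : ∀ (h : List (Fin n)) (W : Clause n), R.Path ∅ h W →
      ∃ V : Finset (Fin n), V.card ≤ Vn ∧ (h.filter (fun v => v ∉ V)).length ≤ Q := by
    intro h W hp
    obtain ⟨V, hV1, hV2⟩ := hpath h W hp
    refine ⟨V, ?_, ?_⟩
    · rw [hVn, Nat.le_div_iff_mul_le hM1, mul_comm]; exact hV1
    · rw [hQ, Nat.le_div_iff_mul_le hM1, mul_comm]; exact hV2
  have hmain := hF4 s₀ r hr1 hrd hs₀r R Q Vn hpath' _ le_rfl ((1 / 2 : ℝ) ^ L) (by positivity)
    (pow_le_one₀ (by norm_num) (by norm_num))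
  set D : ℕ := (N - 3 * t) * κ + (κ * Q / g₂ + Vn / g₂ * (b + 1)) with hD
  have hkg : k ≤ 64 * ℓ * h * g₂ := by
    calc k ≤ 8 * ℓ * b := hkb3.le
      _ ≤ 8 * ℓ * (2 * h * g) := Nat.mul_le_mul_left _ hhg2
      _ ≤ 8 * ℓ * (2 * h * (3 * g₂)) := by
          apply Nat.mul_le_mul_left
          exact Nat.mul_le_mul_left _ hg₂3
      _ = 48 * (ℓ * h * g₂) := by ring
      _ ≤ 64 * (ℓ * h * g₂) := Nat.mul_le_mul_right _ (by norm_num)
      _ = _ := by ring
  have hLD : L * h * D ≤ 3 * n := by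
    have e1 : L * h * ((N - 3 * t) * κ) ≤ n :=
      (Nat.mul_le_mul_left _ (Nat.mul_le_mul_right _ (Nat.sub_le _ _))).trans hNκ
    have e2 : L * h * (κ * Q / g₂) ≤ n := by
      have e3 : k * (L * h * (κ * Q / g₂)) ≤ k * n := by
        calc k * (L * h * (κ * Q / g₂)) ≤ (64 * ℓ * h * g₂) * (L * h * (κ * Q / g₂)) :=
              Nat.mul_le_mul_right _ hkg
          _ = (64 * ℓ * h ^ 2 * L) * (g₂ * (κ * Q / g₂)) := by ring
          _ ≤ (64 * ℓ * h ^ 2 * L) * (κ * Q) :=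
              Nat.mul_le_mul_left _ (Nat.mul_div_le _ _)
          _ = (64 * ℓ * h ^ 2 * L * κ) * Q := by ring
          _ ≤ M * Q := by
              apply Nat.mul_le_mul_right
              rw [hM]
              have : 64 * ℓ * h ^ 2 * L * κ ≤ 64 * ℓ * h ^ 2 * L * (κ + 1) :=
                Nat.mul_le_mul_left _ (by omega)
              omega
          _ ≤ k * n := hMQ
      exact Nat.le_of_mul_le_mul_left e3 hk0
    have e4 : L * h * (Vn / g₂ * (b + 1)) ≤ n := by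
      calc L * h * (Vn / g₂ * (b + 1)) ≤ L * h * (Vn / g₂ * (16 * h * g₂)) := by
            apply Nat.mul_le_mul_left
            apply Nat.mul_le_mul_left
            have h1 : 2 * h * g ≤ 2 * h * (3 * g₂) := Nat.mul_le_mul_left _ hg₂3
            have h2 : 2 * h * (3 * g₂) = 6 * (h * g₂) := by ring
            have h3 : 16 * h * g₂ = 16 * (h * g₂) := by ring
            have h4 : b ≤ 6 * (h * g₂) := by
              rw [← h2]
              exact hhg2.trans h1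
            omega
        _ = 16 * L * h ^ 2 * (g₂ * (Vn / g₂)) := by ring
        _ ≤ 16 * L * h ^ 2 * Vn := Nat.mul_le_mul_left _ (Nat.mul_div_le _ _)
        _ ≤ M * Vn := by
            apply Nat.mul_le_mul_right
            rw [hM]
            have : 16 * L * h ^ 2 ≤ 64 * ℓ * h ^ 2 * L * (κ + 1) := by
              calc 16 * L * h ^ 2 = 16 * 1 * h ^ 2 * L * 1 := by ring
                _ ≤ 64 * ℓ * h ^ 2 * L * (κ + 1) := by
                    apply Nat.mul_le_mul _ (by omega)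
                    apply Nat.mul_le_mul_right
                    apply Nat.mul_le_mul_right
                    exact Nat.mul_le_mul (by norm_num) hℓ1
            exact this.trans (Nat.le_add_right _ _)
        _ ≤ n := hMV
    have e3 : L * h * D = L * h * ((N - 3 * t) * κ) + L * h * (κ * Q / g₂)
        + L * h * (Vn / g₂ * (b + 1)) := by rw [hD]; ring
    omega
  -- real arithmetic
  have hhR : (0 : ℝ) < h := by
    have : 0 < h := by omega
    exact_mod_cast this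
  have hnR : (0 : ℝ) < n := by exact_mod_cast hn1
  have r1 : (W : ℝ) ≤ 4 * n / h := by
    rw [le_div_iff₀ hhR, mul_comm]
    exact_mod_cast hhW
  have r2 : ((L * D : ℕ) : ℝ) ≤ 3 * n / h := by
    rw [le_div_iff₀ hhR]
    have : L * D * h ≤ 3 * n := by
      calc L * D * h = L * h * D := by ring
        _ ≤ _ := hLD
    exact_mod_cast this
  have r3 : (1 + (1 / 2 : ℝ) ^ L) ^ n ≤ (2 : ℝ) ^ ((n : ℝ) / h) := by
    have e1 : (1 + (1 / 2 : ℝ) ^ L) ≤ Real.exp ((1 / 2 : ℝ) ^ L) := by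
      have := Real.add_one_le_exp ((1 / 2 : ℝ) ^ L)
      linarith
    have e2 : Real.exp 1 ≤ (2 : ℝ) ^ (2 : ℝ) := by
      have h1 := Real.exp_one_lt_d9
      have h2 : (2 : ℝ) ^ (2 : ℝ) = 4 := by
        rw [show (2 : ℝ) = ((2 : ℕ) : ℝ) by norm_num, Real.rpow_natCast]; norm_num
      rw [h2]; linarith
    have e3 : (2 * h : ℝ) * (1 / 2 : ℝ) ^ L ≤ 1 := by
      have e4 : 2 * h ≤ 2 ^ (2 * h) := Nat.lt_two_pow_self.le
      have e5 : (2 * h : ℝ) ≤ 2 ^ L := by
        rw [hL]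
        exact_mod_cast e4
      rw [one_div, inv_pow, ← div_eq_mul_inv, div_le_one (by positivity)]
      exact e5
    calc (1 + (1 / 2 : ℝ) ^ L) ^ n ≤ (Real.exp ((1 / 2 : ℝ) ^ L)) ^ n :=
          pow_le_pow_left₀ (by positivity) e1 _
      _ = Real.exp (1 * (n * (1 / 2 : ℝ) ^ L)) := by rw [← Real.exp_nat_mul, one_mul]
      _ = (Real.exp 1) ^ (n * (1 / 2 : ℝ) ^ L) := by rw [Real.exp_mul]
      _ ≤ ((2 : ℝ) ^ (2 : ℝ)) ^ (n * (1 / 2 : ℝ) ^ L) :=
          Real.rpow_le_rpow (Real.exp_pos 1).le e2 (by positivity)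
      _ = (2 : ℝ) ^ (2 * (n * (1 / 2 : ℝ) ^ L)) := by rw [← Real.rpow_mul (by norm_num)]
      _ ≤ _ := by
          apply Real.rpow_le_rpow_of_exponent_le (by norm_num)
          rw [le_div_iff₀ hhR]
          calc 2 * ((n : ℝ) * (1 / 2 : ℝ) ^ L) * h = n * ((2 * h : ℝ) * (1 / 2 : ℝ) ^ L) := by ring
            _ ≤ n * 1 := mul_le_mul_of_nonneg_left e3 hnR.le
            _ = n := mul_one _
  have r4 : (2 : ℝ) ^ (n - W) * ((1 / 2 : ℝ) ^ L) ^ D
      = (2 : ℝ) ^ ((n : ℝ) - W - ((L * D : ℕ) : ℝ)) := by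
    rw [Real.rpow_sub (by norm_num), Real.rpow_natCast, ← Nat.cast_sub hWn, Real.rpow_natCast,
      ← pow_mul, one_div, inv_pow, ← div_eq_mul_inv]
  rw [r4] at hmain
  have r5 : (2 : ℝ) ^ ((1 - ε) * n) * (2 : ℝ) ^ ((n : ℝ) / h)
      < (2 : ℝ) ^ ((n : ℝ) - W - ((L * D : ℕ) : ℝ)) := by
    rw [← Real.rpow_add (by norm_num)]
    apply Real.rpow_lt_rpow_of_exponent_lt (by norm_num)
    have e1 : 8 / (h : ℝ) * n < ε * n := mul_lt_mul_of_pos_right hhε hnR
    have e2 : 8 / (h : ℝ) * n = 4 * n / h + 3 * n / h + n / h := by ring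
    linarith
  have hpos : (0 : ℝ) < (2 : ℝ) ^ ((n : ℝ) / h) := by positivity
  have r6 : (2 : ℝ) ^ ((1 - ε) * n) * (2 : ℝ) ^ ((n : ℝ) / h)
      < (R.lines.card : ℝ) * (2 : ℝ) ^ ((n : ℝ) / h) := by
    calc _ < _ := r5
      _ ≤ _ := hmain
      _ ≤ _ := mul_le_mul_of_nonneg_left r3 (by positivity)
  exact lt_of_mul_lt_mul_right r6 hpos.le

end Pool.Agent.W980.KS
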